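import Mathlib

/-!
Definitions for the problem on the perimeter-to-area ratio of shifted (k,n)-setups.
The plane is `ℂ`, the origin `O` is `0`.
-/

namespace Pool.Agent.MP_7297ca_co

open Real MeasureTheory Set

noncomputable section

/-- The `j`-th vertex of the regular `m`-gon with centre `c` one of whose vertices is `c + z`. -/
def vertex (m : ℕ) (c z : ℂ) (j : ℤ) : ℂ :=
  c + z * Complex.exp (2 * π * Complex.I * j / m)

/-- The set of vertices of the regular `m`-gon with centre `c` one of whose vertices is `c + z`. -/
def vertexSet (m : ℕ) (c z : ℂ) : Set ℂ := Set.range (vertex m c z)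

/-- The closed (solid) regular `m`-gon with centre `c` one of whose vertices is `c + z`. -/
def polygon (m : ℕ) (c z : ℂ) : Set ℂ := convexHull ℝ (vertexSet m c z)

/-- The union of the collection of the `k` regular `n`-gons `polygon n (p i) (z i)`. -/
def unionOf (n : ℕ) {k : ℕ} (p z : Fin k → ℂ) : Set ℂ := ⋃ i, polygon n (p i) (z i)

/-- The perimeter of a compact polygonal region: the length (one-dimensional Hausdorff measure) of
its topological boundary. -/
def perimeter (U : Set ℂ) : ℝ := ((μH[1] : Measure ℂ) (frontier U)).toReal

/-- The area (Lebesgue measure). -/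
def area (U : Set ℂ) : ℝ := (volume U).toReal

/-- The perimeter-to-area ratio. -/
def ratio (U : Set ℂ) : ℝ := perimeter U / area U

/-- Basic (k,n)-setup: the `k` regular `n`-gons `polygon n 0 (z i)` have side length `1` (they are
centred at the origin), and their `k * n` vertices together form a regular `k * n`-gon. -/
structure IsBasicSetup (k n : ℕ) (z : Fin k → ℂ) : Prop where
  side_length : ∀ i, dist (vertex n 0 (z i) 0) (vertex n 0 (z i) 1) = 1
  regular : ∃ c Z : ℂ, Z ≠ 0 ∧ (⋃ i, vertexSet n 0 (z i)) = vertexSet (k * n) c Z

/-- An admissible marking: `A i` is a vertex of the `i`-th polygon of the basic setup, and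
the points `A i` form a regular `k`-gon centred at the origin. -/
structure IsMarking (k n : ℕ) (z A : Fin k → ℂ) : Prop where
  isVertex : ∀ i, A i ∈ vertexSet n 0 (z i)
  regular : ∃ B : ℂ, B ≠ 0 ∧ Set.range A = vertexSet k 0 B

/-- General position: no vertex of one polygon lies on a side of another. -/
def GeneralPosition (n : ℕ) {k : ℕ} (p z : Fin k → ℂ) : Prop :=
  ∀ i j, i ≠ j → ∀ a b : ℤ,
    vertex n (p i) (z i) a ∉ segment ℝ (vertex n (p j) (z j) b) (vertex n (p j) (z j) (b + 1))

/-- `U` has a simple closed polygonal boundary with the `l` vertices `A 0, …, A (l - 1)` in cyclic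
order (the sequence `A` is continued periodically). The sides without their final endpoints are
pairwise disjoint, and consecutive vertices are not collinear. -/
structure HasSimplePolygonalBoundary (U : Set ℂ) (l : ℕ) (A : ℕ → ℂ) : Prop where
  three_le : 3 ≤ l
  periodic : ∀ m, A (m + l) = A m
  corner : ∀ m < l, ¬ Collinear ℝ {A m, A (m + 1), A (m + 2)}
  simple : ∀ m < l, ∀ m' < l, m ≠ m' →
    Disjoint (segment ℝ (A m) (A (m + 1)) \ {A (m + 1)})
      (segment ℝ (A m') (A (m' + 1)) \ {A (m' + 1)})
  frontier_eq : frontier U = ⋃ m, segment ℝ (A m) (A (m + 1))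

/-- Translating the `i`-th polygon of the collection `polygon n (p j) (z j)` by `v` is a
pattern-preserving translation. -/
def IsPatternPreserving (n : ℕ) {k : ℕ} (p z : Fin k → ℂ) (i : Fin k) (v : ℂ) : Prop :=
  GeneralPosition n p z ∧
  ∃ (l : ℕ) (A : ℕ → ℂ), HasSimplePolygonalBoundary (unionOf n p z) l A ∧
    ∀ t : ℝ, 0 ≤ t → t ≤ 1 →
      GeneralPosition n (Function.update p i (p i + t * v)) z ∧
      ∃ A' : ℕ → ℂ,
        HasSimplePolygonalBoundary (unionOf n (Function.update p i (p i + t * v)) z) l A' ∧
        ∀ m < l, ∀ j, A' m ∈ polygon n (Function.update p i (p i + t * v) j) (z j) ↔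
          A m ∈ polygon n (p j) (z j)

/-- The translation vector `v` of the regular `n`-gon with centre `c` and vertex `c + z` is
parallel to the vector from the centre to a vertex. -/
def IsRegularTranslation (n : ℕ) (c z v : ℂ) : Prop :=
  ∃ j : ℤ, ∃ s : ℝ, v = s * (vertex n c z j - c)

/-- The centres after the polygons with index `< s` have been translated by `ε A i`. -/
def stage {k : ℕ} (A : Fin k → ℂ) (ε : ℝ) (s : ℕ) : Fin k → ℂ :=
  fun i => if (i : ℕ) < s then ε * A i else 0

/-- The collection of the polygons `polygon n (ε * A i) (z i)` is a shifted (k,n)-setup with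
parameter `ε`: it is obtained from the basic setup `z` with admissible marking `A` by successive
pattern-preserving regular translations of the polygons (in their order) by `ε A i`. -/
structure IsShiftedSetup (k n : ℕ) (z A : Fin k → ℂ) (ε : ℝ) : Prop where
  basic : IsBasicSetup k n z
  marking : IsMarking k n z A
  pos : 0 < ε
  pattern : ∀ i : Fin k, IsPatternPreserving n (stage A ε i) z i (ε * A i)
  isRegular : ∀ i : Fin k, IsRegularTranslation n (stage A ε i i) (z i) (ε * A i)

end

end Pool.Agent.MP_7297ca_co
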