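import Pool.Agent.MP_7297ca_co.Measure
import Pool.Agent.MP_7297ca_co.Defs

namespace Pool.Agent.MP_7297ca_co

open Real MeasureTheory Set Filter Topology

noncomputable section

lemma vertex_eq (m : ℕ) (c z : ℂ) (j : ℤ) : vertex m c z j = c + z * ei (2 * π * j / m) := by
  unfold vertex ei
  have h : 2 * (π : ℂ) * Complex.I * j / m = ((2 * π * j / m : ℝ) : ℂ) * Complex.I := by
    push_cast
    ring
  rw [h]

lemma ei_eq_iff {a b : ℝ} : ei a = ei b ↔ ∃ n : ℤ, a = b + n * (2 * π) := by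
  constructor
  · intro h
    have h1 : Complex.exp (a * Complex.I) = Complex.exp (b * Complex.I) := h
    rw [Complex.exp_eq_exp_iff_exists_int] at h1
    obtain ⟨n, hn⟩ := h1
    refine ⟨n, ?_⟩
    have := congrArg Complex.im hn
    simpa using this
  · rintro ⟨n, rfl⟩
    apply Complex.ext
    · rw [ei_re, ei_re, cos_add_int_mul_two_pi]
    · rw [ei_im, ei_im, sin_add_int_mul_two_pi]

lemma norm_one_sub_ei (x : ℝ) : ‖1 - ei x‖ = 2 * |sin (x / 2)| := by
  have h : 1 - ei x = ((-(2 * sin (x / 2)) : ℝ) : ℂ) * (Complex.I * ei (x / 2)) := by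
    have e : ei x = ei (x / 2 + x / 2) := by congr 1; ring
    rw [e]
    apply Complex.ext
    · simp only [Complex.sub_re, ei_re, Complex.re_ofReal_mul, Complex.I_mul_re, ei_im,
        Complex.one_re]
      rw [cos_add]
      linear_combination (-1 : ℝ) * sin_sq_add_cos_sq (x / 2)
    · simp only [Complex.sub_im, ei_im, Complex.im_ofReal_mul, Complex.I_mul_im, ei_re,
        Complex.one_im]
      rw [sin_add]; ring
  rw [h, norm_mul, norm_mul, norm_ei, Complex.norm_I, Complex.norm_real, Real.norm_eq_abs, abs_neg,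
    abs_mul, abs_two]
  ring

lemma norm_z {k n : ℕ} (hn : 3 ≤ n) {z : Fin k → ℂ} (hz : IsBasicSetup k n z) (i : Fin k) :
    ‖z i‖ = 1 / (2 * sin (π / n)) := by
  have hn' : (3 : ℝ) ≤ n := by exact_mod_cast hn
  have hpos : 0 < π / n := by have := pi_pos; positivity
  have hlt : π / n < π := div_lt_self pi_pos (by linarith)
  have hsin : 0 < sin (π / n) := sin_pos_of_pos_of_lt_pi hpos hlt
  have h := hz.side_length i
  rw [vertex_eq, vertex_eq, dist_eq_norm] at h
  have e : 0 + z i * ei (2 * π * ((0 : ℤ) : ℝ) / n) - (0 + z i * ei (2 * π * ((1 : ℤ) : ℝ) / n))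
      = z i * (1 - ei (2 * π / n)) := by
    push_cast
    rw [mul_zero, zero_div, ei_zero, mul_one]
    ring
  rw [e, norm_mul, norm_one_sub_ei] at h
  have e2 : 2 * π / n / 2 = π / n := by ring
  rw [e2, abs_of_pos hsin] at h
  rw [eq_div_iff (by positivity)]
  exact h

lemma center_eq_zero {M : ℕ} (hM : 3 ≤ M) {c Z : ℂ} (hZ : Z ≠ 0) {r : ℝ}
    (h : ∀ m : ℤ, ‖vertex M c Z m‖ = r) : c = 0 := by
  have hM0 : 0 < M := by omega
  have hM' : (3 : ℝ) ≤ M := by exact_mod_cast hM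
  -- real parts
  have h1 : ∀ m : ℤ, 2 * dot c (Z * ei (2 * π * m / M)) = r ^ 2 - ‖c‖ ^ 2 - ‖Z‖ ^ 2 := by
    intro m
    rw [← h m, vertex_eq]
    have h2 : ‖c + Z * ei (2 * π * m / M)‖ ^ 2 = ‖c‖ ^ 2 + ‖Z * ei (2 * π * m / M)‖ ^ 2
        + 2 * dot c (Z * ei (2 * π * m / M)) := by
      rw [← Complex.normSq_eq_norm_sq, ← Complex.normSq_eq_norm_sq, ← Complex.normSq_eq_norm_sq,
        Complex.normSq_apply, Complex.normSq_apply, Complex.normSq_apply, dot]
      simp only [Complex.add_re, Complex.add_im]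
      ring
    rw [h2, norm_mul, norm_ei]
    ring
  -- write `conj c * Z` in polar form
  set q : ℂ := (starRingEnd ℂ) c * Z with hq
  have h3 : ∀ m : ℤ, dot c (Z * ei (2 * π * m / M)) = ‖q‖ * cos (Complex.arg q + 2 * π * m / M) := by
    intro m
    have : dot c (Z * ei (2 * π * m / M)) = (q * ei (2 * π * m / M)).re := by
      rw [hq, dot]
      simp only [Complex.mul_re, Complex.mul_im, Complex.conj_re, Complex.conj_im]
      ring
    rw [this]
    conv_lhs => rw [← Complex.norm_mul_exp_arg_mul_I q]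
    have e : (‖q‖ : ℂ) * Complex.exp (Complex.arg q * Complex.I) * ei (2 * π * m / M)
        = (‖q‖ : ℂ) * ei (Complex.arg q + 2 * π * m / M) := by
      rw [ei_add]; unfold ei; ring
    rw [e, Complex.re_ofReal_mul, ei_re]
  have hconst : ∀ m : ℤ, ‖q‖ * cos (Complex.arg q + 2 * π * m / M) = ‖q‖ * cos (Complex.arg q) := by
    intro m
    have a1 := h1 m
    have a2 := h1 0
    rw [h3] at a1 a2
    have : Complex.arg q + 2 * π * ((0 : ℤ) : ℝ) / M = Complex.arg q := by push_cast; ring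
    rw [this] at a2
    linarith
  have hsum := sum_cos_eq_zero hM0 1 (by
    intro hd
    have := Int.le_of_dvd one_pos hd
    omega) (Complex.arg q)
  have hz : ‖q‖ * cos (Complex.arg q) = 0 := by
    have h4 : ∑ m ∈ Finset.range M, ‖q‖ * cos (Complex.arg q + 2 * π * (1 : ℤ) * m / M) = 0 := by
      rw [← Finset.mul_sum, hsum, mul_zero]
    have h5 : ∀ m ∈ Finset.range M, ‖q‖ * cos (Complex.arg q + 2 * π * (1 : ℤ) * m / M)
        = ‖q‖ * cos (Complex.arg q) := by
      intro m _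
      rw [← hconst m]
      congr 3
      push_cast
      ring
    rw [Finset.sum_congr rfl h5, Finset.sum_const, Finset.card_range, nsmul_eq_mul] at h4
    rcases mul_eq_zero.mp h4 with h6 | h6
    · exact absurd h6 (by positivity)
    · exact h6
  have hq0 : q = 0 := by
    by_contra hne
    have hnq : ‖q‖ ≠ 0 := norm_ne_zero_iff.mpr hne
    have hc0 : cos (Complex.arg q) = 0 := (mul_eq_zero.mp hz).resolve_left hnq
    have h1' := hconst 1
    rw [hz] at h1'
    have hc1 : cos (Complex.arg q + 2 * π * ((1 : ℤ) : ℝ) / M) = 0 :=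
      (mul_eq_zero.mp h1').resolve_left hnq
    rw [cos_add, hc0, zero_mul, zero_sub, neg_eq_zero] at hc1
    have hs : sin (2 * π * ((1 : ℤ) : ℝ) / M) ≠ 0 := by
      apply ne_of_gt
      apply sin_pos_of_pos_of_lt_pi
      · have := pi_pos; push_cast; positivity
      · push_cast
        rw [mul_one, div_lt_iff₀ (by linarith)]
        nlinarith [pi_pos]
    have hs0 : sin (Complex.arg q) = 0 := (mul_eq_zero.mp hc1).resolve_right hs
    have := sin_sq_add_cos_sq (Complex.arg q)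
    rw [hs0, hc0] at this
    norm_num at this
  rw [hq] at hq0
  rcases mul_eq_zero.mp hq0 with h6 | h6
  · exact (map_eq_zero _).mp h6
  · exact absurd h6 hZ

/-- a configuration describing a basic setup -/
structure IsData {k n : ℕ} (C : Cfg k n) (s : Fin k → ℤ) (z : Fin k → ℂ) : Prop where
  cs : ∀ i, C.c (s i) = i
  z_eq : ∀ i, z i = (C.R : ℂ) * ei (C.θ (s i))

theorem exists_data {k n : ℕ} (hk : 1 ≤ k) (hn : 3 ≤ n) {z : Fin k → ℂ}
    (hz : IsBasicSetup k n z) : ∃ (C : Cfg k n) (s : Fin k → ℤ), IsData C s z := by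
  obtain ⟨c, Z, hZ, hU⟩ := hz.regular
  have hkR : (0 : ℝ) < k := by exact_mod_cast hk
  have hnR : (0 : ℝ) < n := by exact_mod_cast (by omega : 0 < n)
  have hnorm : ∀ m : ℤ, ‖vertex (k * n) c Z m‖ = 1 / (2 * sin (π / n)) := by
    intro m
    have : vertex (k * n) c Z m ∈ vertexSet (k * n) c Z := ⟨m, rfl⟩
    rw [← hU] at this
    obtain ⟨i, j, hj⟩ := mem_iUnion.mp this
    rw [← hj, vertex_eq, zero_add, norm_mul, norm_ei, mul_one, norm_z hn hz]
  have hc : c = 0 := center_eq_zero (by nlinarith) hZ hnorm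
  subst hc
  set τ := Complex.arg Z with hτ
  set R : ℝ := 1 / (2 * sin (π / n)) with hR
  have hZR : Z = (R : ℂ) * ei τ := by
    have h0 := hnorm 0
    rw [vertex_eq, zero_add, norm_mul, norm_ei, mul_one] at h0
    rw [← h0, hτ]
    exact (Complex.norm_mul_exp_arg_mul_I Z).symm
  have hvZ : ∀ m : ℤ, vertex (k * n) 0 Z m = (R : ℂ) * ei (τ + 2 * π * m / (k * n)) := by
    intro m
    rw [vertex_eq, hZR, ei_add]
    push_cast
    ring
  have hRpos : 0 < R := by
    have h0 := hnorm 0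
    rw [vertex_eq, zero_add, norm_mul, norm_ei, mul_one] at h0
    rw [← h0]
    exact norm_pos_iff.mpr hZ
  have hzmem : ∀ i, ∃ s : ℤ, z i = (R : ℂ) * ei (τ + 2 * π * s / (k * n)) := by
    intro i
    have h1 : z i ∈ ⋃ i, vertexSet n 0 (z i) := by
      apply mem_iUnion.mpr
      refine ⟨i, 0, ?_⟩
      rw [vertex_eq]; push_cast; rw [mul_zero, zero_div, ei_zero]; ring
    rw [hU] at h1
    obtain ⟨s, hs⟩ := h1
    exact ⟨s, by rw [← hs, hvZ]⟩
  choose s hs using hzmem
  have : NeZero k := ⟨by omega⟩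
  set f : Fin k → ZMod k := fun i => (s i : ZMod k) with hf
  have hmod : ∀ m : ℤ, ∃ i, (s i : ZMod k) = (m : ZMod k) := by
    intro m
    have h1 : vertex (k * n) 0 Z m ∈ vertexSet (k * n) 0 Z := ⟨m, rfl⟩
    rw [← hU] at h1
    obtain ⟨i, j, hj⟩ := mem_iUnion.mp h1
    refine ⟨i, ?_⟩
    rw [vertex_eq, hvZ, hs i, zero_add, mul_assoc, ← ei_add] at hj
    have hRc : (R : ℂ) ≠ 0 := by exact_mod_cast hRpos.ne'
    obtain ⟨q, hq⟩ := ei_eq_iff.mp (mul_left_cancel₀ hRc hj)
    have hp := pi_pos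
    have h2 : (s i : ℝ) + k * j = m + q * (k * n) := by
      field_simp at hq
      apply mul_left_cancel₀ two_pi_pos.ne'
      linarith
    have h3 : s i + k * j = m + q * (k * n) := by exact_mod_cast h2
    have h4 := congrArg (fun x : ℤ => (x : ZMod k)) h3
    simpa using h4
  have hsurj : Function.Surjective f := by
    intro x
    obtain ⟨i, hi⟩ := hmod (x.val : ℤ)
    refine ⟨i, ?_⟩
    rw [hf]
    simp only
    rw [hi]
    simp
  have hbij : Function.Bijective f :=
    (Fintype.bijective_iff_surjective_and_card f).mpr ⟨hsurj, by simp [ZMod.card]⟩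
  set e := Equiv.ofBijective f hbij with he
  let C : Cfg k n :=
    { hk := hk
      hn := hn
      τ := τ
      c := fun m => e.symm (m : ZMod k)
      period := by intro m; simp
      surj := by
        intro m i
        refine ⟨((f i - (m : ZMod k)).val), ZMod.val_lt _, ?_⟩
        rw [Equiv.symm_apply_eq]
        push_cast
        rw [ZMod.natCast_zmod_val]
        simp [he]
      inj := by
        intro m m' h
        have h1 := e.symm.injective h
        rw [ZMod.intCast_eq_intCast_iff_dvd_sub] at h1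
        obtain ⟨j, hj⟩ := h1
        exact ⟨j, by linarith⟩ }
  refine ⟨C, s, ⟨?_, ?_⟩⟩
  · intro i
    change e.symm (s i : ZMod k) = i
    rw [Equiv.symm_apply_eq]
    simp [he, hf]
  · intro i
    exact hs i

namespace IsData

variable {k n : ℕ} {C : Cfg k n} {s : Fin k → ℤ} {z : Fin k → ℂ}

lemma vertex_eq_V (D : IsData C s z) (v : Fin k → ℂ) (i : Fin k) (j : ℤ) :
    vertex n (v i) (z i) j = C.V v (s i + k * j) := by
  unfold Cfg.V
  rw [C.period_mul, D.cs, Cfg.θ_add_k, vertex_eq, D.z_eq, ei_add]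
  ring

lemma vertexSet_eq (D : IsData C s z) (v : Fin k → ℂ) (i : Fin k) :
    vertexSet n (v i) (z i) = C.V v '' {m | C.c m = i} := by
  ext x
  constructor
  · rintro ⟨j, rfl⟩
    rw [D.vertex_eq_V]
    exact ⟨s i + k * j, by rw [mem_ofPred_eq, C.period_mul, D.cs], rfl⟩
  · rintro ⟨m, hm, rfl⟩
    rw [mem_ofPred_eq] at hm
    obtain ⟨j, rfl⟩ := C.inj (s i) m (by rw [D.cs, hm])
    exact ⟨j, D.vertex_eq_V v i j⟩

lemma polygon_eq (D : IsData C s z) (v : Fin k → ℂ) (i : Fin k) :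
    polygon n (v i) (z i) = C.Q v i := by
  unfold polygon Cfg.Q
  rw [D.vertexSet_eq]

lemma unionOf_eq (D : IsData C s z) (v : Fin k → ℂ) : unionOf n v z = ⋃ i, C.Q v i := by
  unfold unionOf
  simp_rw [D.polygon_eq]

theorem marking (D : IsData C s z) (hkn : Nat.Coprime k n) {A : Fin k → ℂ}
    (hA : IsMarking k n z A) :
    ∃ (P : ℤ) (α : ℝ), (k : ℤ) ∣ P - 1 ∧ (n : ℤ) ∣ P ∧
      ∀ m : ℤ, A (C.c m) = (C.R : ℂ) * ei (α + 2 * P * m * C.η) := by
  have hkn' : IsCoprime (k : ℤ) (n : ℤ) := Nat.isCoprime_iff_coprime.mpr hkn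
  obtain ⟨u, w, huw⟩ := hkn'
  have hmem : ∀ i, ∃ M : ℤ, C.c M = i ∧ A i = (C.R : ℂ) * ei (C.θ M) := by
    intro i
    obtain ⟨j, hj⟩ := hA.isVertex i
    refine ⟨s i + k * j, by rw [C.period_mul, D.cs], ?_⟩
    have h1 := D.vertex_eq_V (fun _ => 0) i j
    rw [← hj, h1]
    unfold Cfg.V
    ring
  choose M hcM hAM using hmem
  obtain ⟨B, hB, hrange⟩ := hA.regular
  have hroot : ∀ i, ∃ t : ℤ, A i = B * ei (2 * π * t / k) := by
    intro i
    have h1 : A i ∈ Set.range A := ⟨i, rfl⟩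
    rw [hrange] at h1
    obtain ⟨t, ht⟩ := h1
    exact ⟨t, by rw [← ht, vertex_eq, zero_add]⟩
  have hRc : (C.R : ℂ) ≠ 0 := by exact_mod_cast C.R_pos.ne'
  have hdvd : ∀ i j, (n : ℤ) ∣ M i - M j := by
    intro i j
    obtain ⟨t, ht⟩ := hroot i
    obtain ⟨t', ht'⟩ := hroot j
    have h1 : (C.R : ℂ) * ei (C.θ (M i) + 2 * π * t' / k)
        = (C.R : ℂ) * ei (C.θ (M j) + 2 * π * t / k) := by
      rw [ei_add, ei_add, ← mul_assoc, ← mul_assoc, ← hAM, ← hAM, ht, ht']
      ring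
    obtain ⟨q, hq⟩ := ei_eq_iff.mp (mul_left_cancel₀ hRc h1)
    have hk := C.kpos
    have hn := C.npos
    have hp := pi_pos
    have h2 : (M i : ℝ) + n * t' = M j + n * t + q * (k * n) := by
      unfold Cfg.θ at hq
      field_simp at hq
      apply mul_left_cancel₀ two_pi_pos.ne'
      linarith
    have h3 : M i + n * t' = M j + n * t + q * (k * n) := by exact_mod_cast h2
    exact ⟨t - t' + q * k, by linarith⟩
  refine ⟨w * n, C.θ (M (C.c 0)), ⟨-u, by linarith⟩, ⟨w, by ring⟩, ?_⟩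
  intro m
  rw [hAM]
  congr 1
  rw [ei_eq_iff]
  -- `M (c m) - M (c 0) ≡ P m` modulo `k n`
  obtain ⟨j1, hj1⟩ := C.inj (M (C.c m)) m (hcM _)
  obtain ⟨j0, hj0⟩ := C.inj (M (C.c 0)) 0 (hcM _)
  have hd1 : (k : ℤ) ∣ M (C.c m) - M (C.c 0) - w * n * m := by
    refine ⟨-j1 + j0 + u * m, ?_⟩
    have e1 : M (C.c m) = m - k * j1 := by linarith
    have e2 : M (C.c 0) = - (k * j0) := by linarith
    rw [e1, e2]
    have e3 : w * n = 1 - u * k := by linarith
    rw [e3]
    ring
  have hd2 : (n : ℤ) ∣ M (C.c m) - M (C.c 0) - w * n * m :=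
    dvd_sub (hdvd _ _) ⟨w * m, by ring⟩
  have hd3 : (k : ℤ) * n ∣ M (C.c m) - M (C.c 0) - w * n * m :=
    IsCoprime.mul_dvd ⟨u, w, huw⟩ hd1 hd2
  obtain ⟨q, hq⟩ := hd3
  refine ⟨q, ?_⟩
  have hM : M (C.c m) = M (C.c 0) + (w * n * m + k * n * q) := by linarith
  rw [hM, Cfg.θ_add]
  have hk := C.kpos
  have hn := C.npos
  unfold Cfg.η
  push_cast
  field_simp
  ring

end IsData

end

end Pool.Agent.MP_7297ca_co
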