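import Mathlib

namespace Pool.Agent.MP_7297ca_co

open Real MeasureTheory Set

noncomputable section

/-- The unit complex number at angle `t`. -/
def ei (t : ℝ) : ℂ := Complex.exp (t * Complex.I)

/-- real inner product of the plane -/
def dot (x y : ℂ) : ℝ := x.re * y.re + x.im * y.im

/-- the oriented area form of the plane -/
def cross (x y : ℂ) : ℝ := x.re * y.im - x.im * y.re

@[simp] lemma ei_re (t : ℝ) : (ei t).re = cos t := by
  simp [ei, Complex.exp_ofReal_mul_I_re]

@[simp] lemma ei_im (t : ℝ) : (ei t).im = sin t := by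
  simp [ei, Complex.exp_ofReal_mul_I_im]

lemma ei_add (s t : ℝ) : ei (s + t) = ei s * ei t := by
  simp only [ei]
  rw [← Complex.exp_add]
  congr 1
  push_cast
  ring

lemma ei_zero : ei 0 = 1 := by simp [ei]

lemma norm_ei (t : ℝ) : ‖ei t‖ = 1 := by
  simp [ei, Complex.norm_exp_ofReal_mul_I]

lemma ei_ne_zero (t : ℝ) : ei t ≠ 0 := Complex.exp_ne_zero _

lemma ei_add_two_pi (t : ℝ) : ei (t + 2 * π) = ei t := by
  apply Complex.ext <;> simp

/-- the linear map `a + b i ↦ a x + b y`. -/
def lin (x y : ℂ) : ℂ →ₗ[ℝ] ℂ where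
  toFun w := (w.re : ℂ) * x + (w.im : ℂ) * y
  map_add' a b := by
    apply Complex.ext <;> simp <;> ring
  map_smul' c a := by
    apply Complex.ext <;> simp <;> ring

lemma lin_apply (x y w : ℂ) : lin x y w = (w.re : ℂ) * x + (w.im : ℂ) * y := rfl

lemma det_lin (x y : ℂ) : LinearMap.det (lin x y) = cross x y := by
  rw [← LinearMap.det_toMatrix Complex.basisOneI, Matrix.det_fin_two]
  simp [LinearMap.toMatrix_apply, lin_apply, cross]
  ring

/-- half-open quadrant -/
def quad : Set ℂ := {w | 0 < w.re ∧ 0 ≤ w.im}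

/-- half-open standard triangle -/
def tri : Set ℂ := {w | 0 < w.re ∧ 0 ≤ w.im ∧ w.re + w.im ≤ 1}

/-- half-open standard side -/
def side : Set ℂ := {w | 0 < w.re ∧ 0 ≤ w.im ∧ w.re + w.im = 1}

lemma measurableSet_tri : MeasurableSet tri := by
  have h1 : MeasurableSet {w : ℂ | 0 < w.re} :=
    measurableSet_lt measurable_const Complex.measurable_re
  have h2 : MeasurableSet {w : ℂ | 0 ≤ w.im} :=
    measurableSet_le measurable_const Complex.measurable_im
  have h3 : MeasurableSet {w : ℂ | w.re + w.im ≤ 1} :=
    measurableSet_le (Complex.measurable_re.add Complex.measurable_im) measurable_const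
  exact h1.inter (h2.inter h3)

lemma measurableSet_side : MeasurableSet side := by
  have h1 : MeasurableSet {w : ℂ | 0 < w.re} :=
    measurableSet_lt measurable_const Complex.measurable_re
  have h2 : MeasurableSet {w : ℂ | 0 ≤ w.im} :=
    measurableSet_le measurable_const Complex.measurable_im
  have h3 : MeasurableSet {w : ℂ | w.re + w.im = 1} :=
    measurableSet_eq_fun (Complex.measurable_re.add Complex.measurable_im) measurable_const
  exact h1.inter (h2.inter h3)

lemma volume_tri : volume tri = ENNReal.ofReal (1 / 2) := by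
  have h := Complex.volume_preserving_equiv_real_prod.symm
  set T : Set (ℝ × ℝ) := {p | 0 < p.1 ∧ 0 ≤ p.2 ∧ p.1 + p.2 ≤ 1} with hT
  have hpre : Complex.measurableEquivRealProd ⁻¹' T = tri := by
    ext w
    simp [hT, tri, Complex.measurableEquivRealProd]
  have hTm : MeasurableSet T := by
    have h1 : MeasurableSet {p : ℝ × ℝ | 0 < p.1} := measurableSet_lt measurable_const measurable_fst
    have h2 : MeasurableSet {p : ℝ × ℝ | 0 ≤ p.2} := measurableSet_le measurable_const measurable_snd
    have h3 : MeasurableSet {p : ℝ × ℝ | p.1 + p.2 ≤ 1} :=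
      measurableSet_le (measurable_fst.add measurable_snd) measurable_const
    exact h1.inter (h2.inter h3)
  have h1 : volume tri = volume T := by
    rw [← hpre]
    exact Complex.volume_preserving_equiv_real_prod.measure_preimage hTm.nullMeasurableSet
  rw [h1]
  have h2 : (volume : Measure (ℝ × ℝ)) = (volume : Measure ℝ).prod volume := rfl
  rw [h2, Measure.prod_apply hTm]
  have h3 : ∀ x : ℝ, volume (Prod.mk x ⁻¹' T)
      = (Ioc (0:ℝ) 1).indicator (fun x => ENNReal.ofReal (1 - x)) x := by
    intro x
    by_cases hx : x ∈ Ioc (0:ℝ) 1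
    · have : Prod.mk x ⁻¹' T = Icc 0 (1 - x) := by
        ext y
        simp only [hT, mem_preimage, mem_ofPred_eq, mem_Icc]
        constructor
        · rintro ⟨_, h2, h3⟩; exact ⟨h2, by linarith⟩
        · rintro ⟨h2, h3⟩; exact ⟨hx.1, h2, by linarith⟩
      rw [this, Real.volume_Icc, indicator_of_mem hx]
      simp
    · have : Prod.mk x ⁻¹' T = ∅ := by
        ext y
        simp only [hT, mem_preimage, mem_ofPred_eq, mem_empty_iff_false, iff_false]
        rintro ⟨h1, h2, h3⟩
        exact hx ⟨h1, by linarith⟩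
      rw [this, indicator_of_notMem hx]
      simp
  simp_rw [h3]
  rw [lintegral_indicator measurableSet_Ioc]
  rw [← ofReal_integral_eq_lintegral_ofReal]
  · congr 1
    rw [← intervalIntegral.integral_of_le zero_le_one]
    rw [intervalIntegral.integral_sub (by simp) (by simp)]
    simp
    norm_num
  · have : IntervalIntegrable (fun x : ℝ => 1 - x) volume 0 1 :=
      (continuous_const.sub continuous_id).intervalIntegrable _ _
    exact (intervalIntegrable_iff_integrableOn_Ioc_of_le zero_le_one).mp this
  · filter_upwards [ae_restrict_mem measurableSet_Ioc] with x hx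
    simp only [Pi.zero_apply]
    linarith [hx.2]

lemma volume_lin_tri (x y : ℂ) (h : 0 < cross x y) :
    volume (lin x y '' tri) = ENNReal.ofReal (cross x y / 2) := by
  rw [Measure.addHaar_image_linearMap, det_lin, volume_tri, abs_of_pos h,
    ← ENNReal.ofReal_mul h.le]
  congr 1
  ring

lemma lin_injective (x y : ℂ) (h : cross x y ≠ 0) : Function.Injective (lin x y) := by
  rw [← LinearMap.ker_eq_bot]
  by_contra hne
  exact h (by rw [← det_lin]; exact LinearMap.det_eq_zero_iff_ker_ne_bot.mpr hne)

lemma measurableEmbedding_lin (x y : ℂ) (h : cross x y ≠ 0) : MeasurableEmbedding (lin x y) := by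
  have hc : Continuous (lin x y) := LinearMap.continuous_of_finiteDimensional _
  exact hc.measurableEmbedding (lin_injective x y h)

lemma side_eq (x y : ℂ) : lin x y '' side = AffineMap.lineMap x y '' (Ico (0:ℝ) 1) := by
  ext w
  constructor
  · rintro ⟨u, ⟨h1, h2, h3⟩, rfl⟩
    refine ⟨u.im, ⟨h2, by linarith⟩, ?_⟩
    rw [AffineMap.lineMap_apply, lin_apply]
    have : u.re = 1 - u.im := by linarith
    rw [this]
    simp
    ring
  · rintro ⟨s, ⟨h1, h2⟩, rfl⟩
    refine ⟨⟨1 - s, s⟩, ⟨by simpa using h2, by simpa using h1, by simp⟩, ?_⟩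
    rw [AffineMap.lineMap_apply, lin_apply]
    simp
    ring

lemma hausdorff_side (x y : ℂ) :
    (μH[1] : Measure ℂ) (lin x y '' side) = ENNReal.ofReal ‖y - x‖ := by
  rw [side_eq, hausdorffMeasure_lineMap_image]
  rw [hausdorffMeasure_real, Real.volume_Ico]
  simp only [sub_zero, ENNReal.ofReal_one]
  rw [← dist_eq_norm, dist_comm, ← edist_dist, edist_nndist]
  simp [ENNReal.smul_def]

end

end Pool.Agent.MP_7297ca_co
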