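import Pool.Agent.MP_7297ca_co.Fourier

namespace Pool.Agent.MP_7297ca_co

open Real MeasureTheory Set Filter Topology

noncomputable section

lemma cos_lt_cos_of_abs_lt {x y : ℝ} (h : |x| < y) (hy : y ≤ π) : cos y < cos x := by
  rw [← cos_abs x]
  exact cos_lt_cos_of_nonneg_of_le_pi (abs_nonneg x) hy h

lemma dot_ei (s t : ℝ) : dot (ei s) (ei t) = cos (s - t) := by
  rw [dot, cos_sub]; simp

lemma dot_real_mul_ei (r s t : ℝ) : dot ((r : ℂ) * ei s) (ei t) = r * cos (s - t) := by
  rw [dot_smul_left, dot_ei]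

lemma dot_sub_left (x y z : ℂ) : dot (x - y) z = dot x z - dot y z := by
  simp [dot]; ring

lemma dot_zero_left (z : ℂ) : dot 0 z = 0 := by simp [dot]

lemma dot_I_mul (z : ℂ) : dot (Complex.I * z) z = 0 := by
  simp [dot]; ring

lemma abs_dot_le (x y : ℂ) : |dot x y| ≤ ‖x‖ * ‖y‖ := by
  have : dot x y = (x * (starRingEnd ℂ) y).re := by
    simp [dot]
  rw [this]
  refine (Complex.abs_re_le_norm _).trans ?_
  rw [norm_mul, Complex.norm_conj]

lemma cross_ei (s t : ℝ) : cross (ei s) (ei t) = sin (t - s) := by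
  rw [cross, sin_sub]; simp; ring

/-- the key planar identity -/
lemma dot_rot_identity (w a b : ℂ) :
    (dot w a : ℂ) * (Complex.I * b) - (dot w b : ℂ) * (Complex.I * a) = (cross b a : ℂ) * w := by
  apply Complex.ext <;> simp [dot, cross] <;> ring

lemma continuous_dot_left (z : ℂ) : Continuous (fun x => dot x z) := by
  unfold dot; fun_prop

/-- combinatorial data of a (k,n)-setup : the vertex with angle `τ + 2 π m / (k n)` belongs to
the polygon number `c m`. -/
structure Cfg (k n : ℕ) where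
  hk : 1 ≤ k
  hn : 3 ≤ n
  τ : ℝ
  c : ℤ → Fin k
  period : ∀ m, c (m + k) = c m
  surj : ∀ (m : ℤ) (i : Fin k), ∃ s : ℕ, s < k ∧ c (m + s) = i
  inj : ∀ m m' : ℤ, c m = c m' → ∃ j : ℤ, m' = m + k * j

namespace Cfg

variable {k n : ℕ} (C : Cfg k n)

include C in
lemma kpos : (0 : ℝ) < k := by exact_mod_cast C.hk

include C in
lemma npos : (0 : ℝ) < n := by
  have := C.hn
  exact_mod_cast (by omega : 0 < n)

include C in
lemma n3 : (3 : ℝ) ≤ n := by exact_mod_cast C.hn

include C in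
lemma k1 : (1 : ℝ) ≤ k := by exact_mod_cast C.hk

/-- circumradius -/
def R (_ : Cfg k n) : ℝ := 1 / (2 * sin (π / n))

/-- angle of the `m`-th vertex -/
def θ (m : ℤ) : ℝ := C.τ + 2 * π * m / (k * n)

/-- half-difference of the angles of the two normals at a crossing point -/
def β (_ : Cfg k n) : ℝ := π / n - π / (k * n)

/-- angle `π / (k n)` -/
def η (_ : Cfg k n) : ℝ := π / (k * n)

def ρ : ℝ := C.R * cos (π / n)

def L0 : ℝ := C.R * sin C.η / cos C.β

include C in
lemma pin_pos : 0 < π / n := div_pos pi_pos C.npos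

include C in
lemma pin_le : π / n ≤ π / 3 := div_le_div_of_nonneg_left pi_pos.le (by norm_num) C.n3

include C in
lemma sin_pin_pos : 0 < sin (π / n) :=
  sin_pos_of_pos_of_lt_pi C.pin_pos (by linarith [C.pin_le, pi_pos])

include C in
lemma cos_pin_pos : 0 < cos (π / n) :=
  cos_pos_of_mem_Ioo ⟨by linarith [C.pin_pos, pi_pos], by linarith [C.pin_le, pi_pos]⟩

lemma R_pos : 0 < C.R := by
  have := C.sin_pin_pos
  unfold R; positivity

lemma R_sin : C.R * (2 * sin (π / n)) = 1 := by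
  have := C.sin_pin_pos
  unfold R; field_simp

lemma ρ_pos : 0 < C.ρ := mul_pos C.R_pos C.cos_pin_pos

lemma η_pos : 0 < C.η := by
  have := C.kpos; have := C.npos
  unfold η; have := pi_pos; positivity

lemma η_le : C.η ≤ π / n := by
  unfold η
  apply div_le_div_of_nonneg_left pi_pos.le C.npos
  have := C.k1; have := C.npos
  nlinarith

lemma β_eq : C.β = π / n - C.η := rfl

lemma β_nonneg : 0 ≤ C.β := by
  rw [β_eq]; linarith [C.η_le]

lemma β_lt : C.β < π / n := by
  rw [β_eq]; linarith [C.η_pos]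

lemma cos_β_gt : 1 / 2 < cos C.β := by
  rw [← cos_pi_div_three]
  exact cos_lt_cos_of_nonneg_of_le_pi C.β_nonneg (by linarith [pi_pos]) (lt_of_lt_of_le C.β_lt C.pin_le)

lemma cos_β_pos : 0 < cos C.β := by linarith [C.cos_β_gt]

lemma L0_pos : 0 < C.L0 := by
  have h1 := C.R_pos
  have h2 : 0 < sin C.η := sin_pos_of_pos_of_lt_pi C.η_pos
    (by linarith [C.η_le, C.pin_le, pi_pos])
  have h3 := C.cos_β_pos
  unfold L0; positivity

lemma L0_lt_one : C.L0 < 1 := by
  have h1 := C.sin_pin_pos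
  have h3 := C.cos_β_pos
  have h4 : sin C.η ≤ sin (π / n) := by
    apply sin_le_sin_of_le_of_le_pi_div_two (by linarith [C.η_pos, pi_pos])
      (by linarith [C.pin_le, pi_pos]) C.η_le
  have h5 := C.cos_β_gt
  unfold L0 R
  rw [div_mul_eq_mul_div, one_mul, div_div, div_lt_one (by positivity)]
  nlinarith

/-- the `m`-th vertex of the displaced configuration -/
def V (v : Fin k → ℂ) (m : ℤ) : ℂ := (C.R : ℂ) * ei (C.θ m) + v (C.c m)

/-- outer normal of the side starting (counterclockwise) at vertex `m` -/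
def a (m : ℤ) : ℂ := ei (C.θ m + π / n)

/-- outer normal of the side ending at vertex `m + 1` -/
def b (m : ℤ) : ℂ := ei (C.θ (m + 1) - π / n)

def w (v : Fin k → ℂ) (m : ℤ) : ℂ := v (C.c (m + 1)) - v (C.c m)

def ℓ (v : Fin k → ℂ) (m : ℤ) : ℝ := C.L0 - dot (C.w v m) (C.b m) / sin (2 * C.β)

def ℓ' (v : Fin k → ℂ) (m : ℤ) : ℝ := C.L0 + dot (C.w v m) (C.a m) / sin (2 * C.β)

/-- the crossing point between vertices `m` and `m+1` -/
def X (v : Fin k → ℂ) (m : ℤ) : ℂ := C.V v m + (C.ℓ v m : ℂ) * (Complex.I * C.a m)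

lemma θ_add (m s : ℤ) : C.θ (m + s) = C.θ m + 2 * s * C.η := by
  unfold θ η
  push_cast
  ring

lemma θ_succ (m : ℤ) : C.θ (m + 1) = C.θ m + 2 * C.η := by
  rw [θ_add]; push_cast; ring

lemma θ_add_k (m j : ℤ) : C.θ (m + k * j) = C.θ m + 2 * π * j / n := by
  have := C.kpos; have := C.npos
  unfold θ
  push_cast
  field_simp
  ring

lemma a_eq (m : ℤ) : C.a m = ei (C.θ m + C.η + C.β) := by
  unfold a; rw [β_eq]; congr 1; ring

lemma b_eq (m : ℤ) : C.b m = ei (C.θ m + C.η - C.β) := by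
  unfold b; rw [β_eq, θ_succ]; congr 1; ring

lemma cross_b_a (m : ℤ) : cross (C.b m) (C.a m) = sin (2 * C.β) := by
  rw [a_eq, b_eq, cross_ei]; congr 1; ring

lemma two_β_lt : 2 * C.β < π := by
  have := C.β_lt; have := C.pin_le; have := pi_pos
  linarith

/-- if `k = 1`, all displacement differences vanish -/
lemma w_eq_zero (v : Fin k → ℂ) (m : ℤ) (h : sin (2 * C.β) = 0) : C.w v m = 0 := by
  have hβ : C.β = 0 := by
    by_contra hne
    have h1 : 0 < C.β := lt_of_le_of_ne C.β_nonneg (Ne.symm hne)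
    have h2 := sin_pos_of_pos_of_lt_pi (by linarith : 0 < 2 * C.β) C.two_β_lt
    exact h2.ne' h
  have hk : k = 1 := by
    rw [β_eq, η, sub_eq_zero] at hβ
    have h1 := C.kpos; have h2 := C.npos; have h3 := pi_pos
    have h4 : (k : ℝ) = 1 := by
      field_simp at hβ
      linarith
    exact_mod_cast h4
  subst hk
  unfold w
  rw [Subsingleton.elim (C.c (m + 1)) (C.c m), sub_self]

lemma X_eq' (v : Fin k → ℂ) (m : ℤ) :
    C.X v m = C.V v (m + 1) - (C.ℓ' v m : ℂ) * (Complex.I * C.b m) := by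
  have key := dot_rot_identity (C.w v m) (C.a m) (C.b m)
  rw [cross_b_a] at key
  have hV : C.V v (m + 1) - C.V v m
      = (C.L0 : ℂ) * (Complex.I * C.a m) + (C.L0 : ℂ) * (Complex.I * C.b m) + C.w v m := by
    have h1 : (C.R : ℂ) * ei (C.θ (m + 1)) - (C.R : ℂ) * ei (C.θ m)
        = (C.L0 : ℂ) * (Complex.I * C.a m) + (C.L0 : ℂ) * (Complex.I * C.b m) := by
      have hL : C.L0 * cos C.β = C.R * sin C.η := by
        unfold L0; have := C.cos_β_pos; field_simp
      rw [a_eq, b_eq]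
      have e1 : ei (C.θ m + C.η + C.β) + ei (C.θ m + C.η - C.β)
          = ((2 * cos C.β : ℝ) : ℂ) * ei (C.θ m + C.η) := by
        apply Complex.ext
        · simp only [Complex.add_re, ei_re, Complex.re_ofReal_mul]
          rw [cos_add, cos_sub]; ring
        · simp only [Complex.add_im, ei_im, Complex.im_ofReal_mul]
          rw [sin_add, sin_sub]; ring
      have e2 : ei (C.θ (m + 1)) - ei (C.θ m)
          = ((2 * sin C.η : ℝ) : ℂ) * (Complex.I * ei (C.θ m + C.η)) := by
        rw [θ_succ]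
        have e3 : C.θ m + 2 * C.η = (C.θ m + C.η) + C.η := by ring
        have e4 : ei (C.θ m) = ei ((C.θ m + C.η) - C.η) := by congr 1; ring
        rw [e3, e4]
        apply Complex.ext
        · simp only [Complex.sub_re, ei_re, Complex.re_ofReal_mul, Complex.I_mul_re, ei_im]
          rw [cos_add (C.θ m + C.η), cos_sub]; ring
        · simp only [Complex.sub_im, ei_im, Complex.im_ofReal_mul, Complex.I_mul_im, ei_re]
          rw [sin_add (C.θ m + C.η), sin_sub]; ring
      calc (C.R : ℂ) * ei (C.θ (m + 1)) - (C.R : ℂ) * ei (C.θ m)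
          = (C.R : ℂ) * (ei (C.θ (m + 1)) - ei (C.θ m)) := by ring
        _ = ((C.R * sin C.η : ℝ) : ℂ) * (2 * (Complex.I * ei (C.θ m + C.η))) := by
            rw [e2]; push_cast; ring
        _ = ((C.L0 * cos C.β : ℝ) : ℂ) * (2 * (Complex.I * ei (C.θ m + C.η))) := by rw [hL]
        _ = (C.L0 : ℂ) * (Complex.I * (((2 * cos C.β : ℝ) : ℂ) * ei (C.θ m + C.η))) := by
            push_cast; ring
        _ = _ := by rw [← e1]; ring
    rw [← h1]
    unfold V w
    ring
  by_cases hs : sin (2 * C.β) = 0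
  · have hw := C.w_eq_zero v m hs
    have h1 : C.ℓ v m = C.L0 := by unfold ℓ; rw [hs]; simp
    have h2 : C.ℓ' v m = C.L0 := by unfold ℓ'; rw [hs]; simp
    rw [hw] at hV
    unfold X
    rw [h1, h2]
    have : C.V v (m + 1) = C.V v m + ((C.L0 : ℂ) * (Complex.I * C.a m)
        + (C.L0 : ℂ) * (Complex.I * C.b m) + 0) := by rw [← hV]; ring
    rw [this]; ring
  · have hsc : ((sin (2 * C.β) : ℝ) : ℂ) ≠ 0 := by exact_mod_cast hs
    have hw : C.w v m = ((dot (C.w v m) (C.a m) / sin (2 * C.β) : ℝ) : ℂ) * (Complex.I * C.b m)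
        - ((dot (C.w v m) (C.b m) / sin (2 * C.β) : ℝ) : ℂ) * (Complex.I * C.a m) := by
      have : C.w v m = (((sin (2 * C.β) : ℝ) : ℂ) * C.w v m) / ((sin (2 * C.β) : ℝ) : ℂ) := by
        field_simp
      rw [Complex.ofReal_div, Complex.ofReal_div]
      rw [div_mul_eq_mul_div, div_mul_eq_mul_div, ← sub_div, key]
      exact this
    unfold X ℓ ℓ'
    push_cast at hw ⊢
    linear_combination - hV - hw

end Cfg

end

end Pool.Agent.MP_7297ca_co
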