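import Pool.Agent.MP_7297ca_co.Cone

namespace Pool.Agent.MP_7297ca_co

open Real MeasureTheory Set

noncomputable section

lemma quad_polar {p q t δ a b : ℝ} (hp : 0 < p) (hq : 0 < q) (hδ : 0 < δ) (hδ' : δ < π)
    (ha : 0 < a) (hb : 0 ≤ b) :
    ∃ ρ : ℝ, 0 < ρ ∧ ∃ s : ℝ, 0 ≤ s ∧ s < δ ∧
      (a : ℂ) * (p * ei t) + (b : ℂ) * (q * ei (t + δ)) = ρ * ei (t + s) := by
  have hsin : 0 < sin δ := sin_pos_of_pos_of_lt_pi hδ hδ'
  set y : ℂ := (a * p : ℝ) + (b * q : ℝ) * ei δ with hy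
  have hyre : y.re = a * p + b * q * cos δ := by simp [hy]
  have hyim : y.im = b * q * sin δ := by simp [hy]
  have hpolar : y = (‖y‖ : ℝ) * ei (Complex.arg y) := by
    rw [ei, Complex.norm_mul_exp_arg_mul_I]
  have hcr : ‖y‖ * sin (Complex.arg y - δ) = - (a * p * sin δ) := by
    have h1 : ‖y‖ * cos (Complex.arg y) = y.re := Complex.norm_mul_cos_arg y
    have h2 : ‖y‖ * sin (Complex.arg y) = y.im := Complex.norm_mul_sin_arg y
    rw [sin_sub, mul_sub, ← mul_assoc, ← mul_assoc, h1, h2, hyre, hyim]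
    ring
  have hneg : ‖y‖ * sin (Complex.arg y - δ) < 0 := by
    rw [hcr]
    have : 0 < a * p * sin δ := by positivity
    linarith
  have hy0 : 0 < ‖y‖ := by
    rcases (norm_nonneg y).eq_or_lt with h | h
    · rw [← h] at hneg; simp at hneg
    · exact h
  have harg0 : 0 ≤ Complex.arg y := by
    rw [Complex.arg_nonneg_iff, hyim]
    positivity
  have hargd : Complex.arg y < δ := by
    by_contra hcon
    push Not at hcon
    have h1 : 0 ≤ sin (Complex.arg y - δ) :=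
      sin_nonneg_of_nonneg_of_le_pi (by linarith) (by linarith [Complex.arg_le_pi y])
    have := mul_nonneg hy0.le h1
    linarith
  refine ⟨‖y‖, hy0, Complex.arg y, harg0, hargd, ?_⟩
  calc (a : ℂ) * (p * ei t) + (b : ℂ) * (q * ei (t + δ)) = ei t * y := by
        rw [ei_add, hy]; push_cast; ring
    _ = ei t * ((‖y‖ : ℝ) * ei (Complex.arg y)) := by rw [← hpolar]
    _ = (‖y‖ : ℝ) * ei (t + Complex.arg y) := by rw [ei_add]; ring

lemma polar_quad {p q t δ ρ s : ℝ} (hp : 0 < p) (hq : 0 < q) (hδ : 0 < δ) (hδ' : δ < π)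
    (hρ : 0 < ρ) (hs : 0 ≤ s) (hs' : s < δ) :
    ∃ a b : ℝ, 0 < a ∧ 0 ≤ b ∧ a * (p * sin δ) = ρ * sin (δ - s) ∧ b * (q * sin δ) = ρ * sin s ∧
      (ρ : ℂ) * ei (t + s) = (a : ℂ) * (p * ei t) + (b : ℂ) * (q * ei (t + δ)) := by
  have hsin : 0 < sin δ := sin_pos_of_pos_of_lt_pi hδ hδ'
  have h1 : 0 < sin (δ - s) := sin_pos_of_pos_of_lt_pi (by linarith) (by linarith)
  have h2 : 0 ≤ sin s := sin_nonneg_of_nonneg_of_le_pi hs (by linarith)
  refine ⟨ρ * sin (δ - s) / (p * sin δ), ρ * sin s / (q * sin δ), by positivity, by positivity,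
    by field_simp, by field_simp, ?_⟩
  have key : (sin δ : ℂ) * ei s = (sin (δ - s) : ℂ) + (sin s : ℂ) * ei δ := by
    apply Complex.ext
    · simp only [Complex.mul_re, Complex.add_re, ei_re, ei_im,
        Complex.ofReal_re, Complex.ofReal_im]
      rw [sin_sub]; ring
    · simp only [Complex.mul_im, Complex.add_im, ei_re, ei_im,
        Complex.ofReal_re, Complex.ofReal_im]
      ring
  have hsc : (sin δ : ℂ) ≠ 0 := by exact_mod_cast hsin.ne'
  have hpc : (p : ℂ) ≠ 0 := by exact_mod_cast hp.ne'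
  have hqc : (q : ℂ) ≠ 0 := by exact_mod_cast hq.ne'
  rw [ei_add t s, ei_add t δ]
  have e1 : ((ρ * sin (δ - s) / (p * sin δ) : ℝ) : ℂ) * (p * ei t)
      = ρ * ei t * (sin (δ - s) : ℂ) / sin δ := by
    push_cast
    rw [Complex.ofReal_sin] at hsc
    field_simp
  have e2 : ((ρ * sin s / (q * sin δ) : ℝ) : ℂ) * (q * (ei t * ei δ))
      = ρ * ei t * ((sin s : ℂ) * ei δ) / sin δ := by
    push_cast
    rw [Complex.ofReal_sin] at hsc
    field_simp
  rw [e1, e2, ← add_div, ← mul_add, ← key]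
  field_simp

/-- A fan: a closed chain of points going once around the origin. -/
structure Fan (N : ℕ) (W : ℕ → ℂ) (r t : ℕ → ℝ) : Prop where
  pos : ∀ l ≤ N, 0 < r l
  eq : ∀ l ≤ N, W l = r l * ei (t l)
  lt : ∀ l < N, t l < t (l + 1)
  lt_pi : ∀ l < N, t (l + 1) - t l < π
  close : t N = t 0 + 2 * π

namespace Fan

variable {N : ℕ} {W : ℕ → ℂ} {r t : ℕ → ℝ}

lemma mono (F : Fan N W r t) {l m : ℕ} (hlm : l ≤ m) (hm : m ≤ N) : t l ≤ t m := by
  induction m, hlm using Nat.le_induction with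
  | base => exact le_rfl
  | succ k hk ih => exact (ih (by omega)).trans (F.lt k (by omega)).le

lemma cross_pos (F : Fan N W r t) {l : ℕ} (hl : l < N) : 0 < cross (W l) (W (l + 1)) := by
  have h1 := F.pos l hl.le
  have h2 := F.pos (l + 1) hl
  have h3 : 0 < sin (t (l + 1) - t l) :=
    sin_pos_of_pos_of_lt_pi (by linarith [F.lt l hl]) (F.lt_pi l hl)
  have : cross (W l) (W (l + 1)) = r l * r (l + 1) * sin (t (l + 1) - t l) := by
    rw [F.eq l hl.le, F.eq (l + 1) hl, cross, sin_sub]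
    simp
    ring
  rw [this]
  positivity

lemma exists_polar (F : Fan N W r t) {l : ℕ} (hl : l < N) {x : ℂ}
    (hx : x ∈ lin (W l) (W (l + 1)) '' quad) :
    ∃ ρ : ℝ, 0 < ρ ∧ ∃ φ : ℝ, t l ≤ φ ∧ φ < t (l + 1) ∧ x = ρ * ei φ := by
  obtain ⟨w, ⟨hw1, hw2⟩, rfl⟩ := hx
  obtain ⟨ρ, hρ, s, hs1, hs2, hs3⟩ := quad_polar (t := t l) (F.pos l hl.le) (F.pos (l + 1) hl)
    (sub_pos.mpr (F.lt l hl)) (F.lt_pi l hl) hw1 hw2
  refine ⟨ρ, hρ, t l + s, by linarith, by linarith, ?_⟩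
  rw [← hs3, lin_apply, F.eq l hl.le, F.eq (l + 1) hl]
  congr 4
  ring

lemma exists_mem (F : Fan N W r t) {x : ℂ} (hx : x ≠ 0) :
    ∃ l < N, x ∈ lin (W l) (W (l + 1)) '' quad := by
  have hx0 : 0 < ‖x‖ := norm_pos_iff.mpr hx
  set φ := toIcoMod two_pi_pos (t 0) (Complex.arg x) with hφ
  have hmem := toIcoMod_mem_Ico two_pi_pos (t 0) (Complex.arg x)
  rw [← hφ] at hmem
  have hxe : x = ‖x‖ * ei φ := by
    have h1 : ei φ = ei (Complex.arg x) := by
      have h2 : Complex.arg x = φ + toIcoDiv two_pi_pos (t 0) (Complex.arg x) • (2 * π) := by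
        rw [hφ]; exact (toIcoMod_add_toIcoDiv_zsmul _ _ _).symm
      apply Complex.ext
      · rw [ei_re, ei_re, h2, zsmul_eq_mul, cos_add_int_mul_two_pi]
      · rw [ei_im, ei_im, h2, zsmul_eq_mul, sin_add_int_mul_two_pi]
    rw [h1, ei, Complex.norm_mul_exp_arg_mul_I]
  classical
  set l := Nat.findGreatest (fun l => t l ≤ φ) N with hl
  have h0 : t 0 ≤ φ := hmem.1
  have hlφ : t l ≤ φ := Nat.findGreatest_spec (P := fun l => t l ≤ φ) (Nat.zero_le N) h0
  have hlN : l ≤ N := Nat.findGreatest_le N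
  have hne : l ≠ N := by
    intro h
    rw [h, F.close] at hlφ
    linarith [hmem.2]
  have hlt : l < N := lt_of_le_of_ne hlN hne
  have hl1 : φ < t (l + 1) := by
    by_contra hcon
    push Not at hcon
    have := Nat.le_findGreatest (P := fun l => t l ≤ φ) (Nat.succ_le_of_lt hlt) hcon
    rw [← hl] at this
    omega
  refine ⟨l, hlt, ?_⟩
  obtain ⟨a, b, ha, hb, -, -, hab⟩ := polar_quad (t := t l) (s := φ - t l) (F.pos l hlN)
    (F.pos (l + 1) hlt) (sub_pos.mpr (F.lt l hlt)) (F.lt_pi l hlt) hx0 (by linarith) (by linarith)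
  refine ⟨⟨a, b⟩, ⟨ha, hb⟩, ?_⟩
  rw [lin_apply, F.eq l hlN, F.eq (l + 1) hlt, hxe]
  have e1 : t l + (φ - t l) = φ := by ring
  have e2 : t l + (t (l + 1) - t l) = t (l + 1) := by ring
  rw [e1, e2] at hab
  exact hab.symm

lemma ei_eq_iff_aux {a b : ℝ} (h : ei a = ei b) (hab : a < b) (hb : b < a + 2 * π) : False := by
  have h1 : Complex.exp (a * Complex.I) = Complex.exp (b * Complex.I) := h
  rw [Complex.exp_eq_exp_iff_exists_int] at h1
  obtain ⟨n, hn⟩ := h1
  have h2 : a = b + n * (2 * π) := by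
    have := congrArg Complex.im hn
    simpa using this
  have hn1 : (n : ℝ) < 0 := by
    by_contra hcon
    push Not at hcon
    have : 0 ≤ (n : ℝ) * (2 * π) := mul_nonneg hcon two_pi_pos.le
    linarith
  have hn2 : (-1 : ℝ) < n := by
    by_contra hcon
    push Not at hcon
    have : (n : ℝ) * (2 * π) ≤ (-1) * (2 * π) := mul_le_mul_of_nonneg_right hcon two_pi_pos.le
    linarith
  have hn3 : n < 0 := by exact_mod_cast hn1
  have hn4 : -1 < n := by exact_mod_cast hn2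
  omega

lemma ei_mul_eq {ρ ρ' a b : ℝ} (hρ : 0 < ρ) (hρ' : 0 < ρ') (h : (ρ : ℂ) * ei a = ρ' * ei b) :
    ei a = ei b := by
  have h1 : ρ = ρ' := by
    have := congrArg norm h
    rw [norm_mul, norm_mul, norm_ei, norm_ei] at this
    simpa [abs_of_pos hρ, abs_of_pos hρ'] using this
  subst h1
  exact mul_left_cancel₀ (by exact_mod_cast hρ.ne') h

lemma unique (F : Fan N W r t) {l m : ℕ} (hl : l < N) (hm : m < N) {x : ℂ}
    (hxl : x ∈ lin (W l) (W (l + 1)) '' quad) (hxm : x ∈ lin (W m) (W (m + 1)) '' quad) :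
    l = m := by
  wlog hlm : l < m generalizing l m
  · rcases lt_trichotomy l m with h | h | h
    · exact absurd h hlm
    · exact h
    · exact (this hm hl hxm hxl h).symm
  exfalso
  obtain ⟨ρ, hρ, φ, h1, h2, h3⟩ := F.exists_polar hl hxl
  obtain ⟨ρ', hρ', φ', h1', h2', h3'⟩ := F.exists_polar hm hxm
  have he : ei φ = ei φ' := ei_mul_eq hρ hρ' (h3 ▸ h3')
  have m1 : t (l + 1) ≤ t m := F.mono hlm hm.le
  have m2 : t 0 ≤ t l := F.mono (Nat.zero_le _) hl.le
  have m3 : t (m + 1) ≤ t N := F.mono hm le_rfl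
  have m4 := F.close
  exact ei_eq_iff_aux he (by linarith) (by linarith)

end Fan

end

end Pool.Agent.MP_7297ca_co
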