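import Pool.Agent.MP_7297ca_co.Pattern

namespace Pool.Agent.MP_7297ca_co

open Real MeasureTheory Set Filter Topology

noncomputable section

namespace Cfg

variable {k n : ℕ} {C : Cfg k n}

section one

lemma L0_one (hk : k = 1) : C.L0 = 1 / 2 := by
  have h1 : C.β = 0 := by
    unfold β; rw [hk]; push_cast; rw [one_mul, sub_self]
  have h2 : C.η = π / n := by
    unfold η; rw [hk]; push_cast; rw [one_mul]
  have h3 := C.R_sin
  unfold L0
  rw [h1, h2, cos_zero, div_one]
  linarith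

lemma sin_one (hk : k = 1) : sin (2 * C.β) = 0 := by
  have h1 : C.β = 0 := by
    unfold β; rw [hk]; push_cast; rw [one_mul, sub_self]
  rw [h1, mul_zero, sin_zero]

lemma V_succ_one (hk : k = 1) (v : Fin k → ℂ) (m : ℤ) :
    C.V v (m + 1) = C.V v m + Complex.I * C.a m := by
  have h := C.V_add_k v m
  have : ((k : ℕ) : ℤ) = 1 := by rw [hk]; rfl
  rwa [this] at h

lemma X_one (hk : k = 1) (v : Fin k → ℂ) (m : ℤ) :
    C.X v m = C.V v m + (1 / 2 : ℝ) * (Complex.I * C.a m) := by
  unfold X ℓ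
  rw [C.L0_one hk, C.sin_one hk, div_zero, sub_zero]

lemma cross_a_a_one (hk : k = 1) (m : ℤ) : cross (C.a m) (C.a (m + 1)) = sin (2 * (π / n)) := by
  have h2 : C.η = π / n := by
    unfold η; rw [hk]; push_cast; rw [one_mul]
  unfold a
  rw [cross_ei, θ_succ, h2]
  congr 1
  ring

lemma cross_I (a b : ℂ) : cross (Complex.I * a) (Complex.I * b) = cross a b := by
  simp [cross]; ring

/-- boundary of a single polygon -/
lemma Good.boundary_one {v : Fin k → ℂ} (G : C.Good v) (hk : k = 1) :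
    HasSimplePolygonalBoundary (⋃ i, C.Q v i) n (fun m : ℕ => C.V v m) := by
  have hsucc : ∀ m : ℕ, C.V v ((m + 1 : ℕ) : ℤ) = C.V v m + Complex.I * C.a m := by
    intro m; push_cast; exact C.V_succ_one hk v m
  have hkn : k * n = n := by rw [hk, one_mul]
  have hper : ∀ m : ℕ, C.V v ((m + n : ℕ) : ℤ) = C.V v m := by
    intro m
    have h := C.V_add_kn v m
    have e : (m : ℤ) + k * n = ((m + n : ℕ) : ℤ) := by rw [hk]; push_cast; ring
    rwa [e] at h
  have hne : ∀ m : ℕ, C.V v m ≠ C.V v ((m + 1 : ℕ) : ℤ) := by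
    intro m h
    rw [hsucc] at h
    have h1 : Complex.I * C.a m = 0 := by
      have := congrArg (fun x => x - C.V v m) h
      simpa using this.symm
    have h2 := congrArg norm h1
    rw [norm_mul, norm_a, Complex.norm_I, norm_zero] at h2
    norm_num at h2
  have hside : ∀ m : ℕ, lin (C.V v m) (C.V v ((m + 1 : ℕ) : ℤ)) '' side =
      lin (C.W v (2 * m)) (C.W v (2 * m + 1)) '' side ∪
      lin (C.W v (2 * m + 1)) (C.W v (2 * m + 1 + 1)) '' side := by
    intro m
    have e : 2 * m + 1 + 1 = 2 * (m + 1) := by ring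
    rw [e, W_even, W_odd, W_even, C.X_one hk, hsucc]
    exact (midpoint_side _ _).symm
  refine ⟨C.hn, hper, ?_, ?_, ?_⟩
  · intro m _
    apply not_collinear
    have e : m + 2 = (m + 1) + 1 := by ring
    rw [e, hsucc (m + 1), hsucc m, add_sub_cancel_left, add_sub_cancel_left, cross_I]
    push_cast
    rw [C.cross_a_a_one hk]
    exact C.sin_two_pin_pos.ne'
  · intro m hm m' hm' hne'
    rw [← lin_side_eq (hne m), ← lin_side_eq (hne m'), hside, hside]
    have hp := G.star.pairwise (s := side) (fun w hw => ⟨hw.1, hw.2.1⟩)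
    have hb : ∀ l < 2 * n, l ∈ ((Finset.range (2 * (k * n)) : Finset ℕ) : Set ℕ) := by
      intro l hl
      rw [hkn]
      simpa using hl
    rw [disjoint_union_left, disjoint_union_right, disjoint_union_right]
    refine ⟨⟨hp (hb _ (by omega)) (hb _ (by omega)) (by omega),
      hp (hb _ (by omega)) (hb _ (by omega)) (by omega)⟩,
      ⟨hp (hb _ (by omega)) (hb _ (by omega)) (by omega),
      hp (hb _ (by omega)) (hb _ (by omega)) (by omega)⟩⟩
  · have : Nonempty (Fin k) := ⟨C.c 0⟩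
    rw [G.star.frontier_eq, ← iUnion_side_eq C.n0 hper hne]
    ext x
    simp only [mem_iUnion, Finset.mem_range]
    constructor
    · rintro ⟨l, hl, hx⟩
      obtain ⟨m, hm | hm⟩ := Nat.even_or_odd' l
      · refine ⟨m, by rw [hkn] at hl; omega, ?_⟩
        rw [hside]
        left
        rwa [hm] at hx
      · refine ⟨m, by rw [hkn] at hl; omega, ?_⟩
        rw [hside]
        right
        rwa [hm] at hx
    · rintro ⟨m, hm, hx⟩
      rw [hside] at hx
      rcases hx with hx | hx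
      · exact ⟨2 * m, by rw [hkn]; omega, hx⟩
      · exact ⟨2 * m + 1, by rw [hkn]; omega, hx⟩

end one

lemma exists_delta (C : Cfg k n) : ∃ δ > 0, ∀ v : Fin k → ℂ, (∀ i, ‖v i‖ < δ) → C.Good v := by
  obtain ⟨δ, hδ, h⟩ := Metric.eventually_nhds_iff.mp C.evt_good
  refine ⟨δ, hδ, fun v hv => h ?_⟩
  rw [dist_zero_right, pi_norm_lt_iff hδ]
  exact hv

/-- any two good configurations have the same pattern -/
theorem Good.pattern {s : Fin k → ℤ} {z : Fin k → ℂ} (D : IsData C s z) {p : Fin k → ℂ}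
    (G : C.Good p) (i : Fin k) (u : ℂ)
    (H : ∀ t : ℝ, 0 ≤ t → t ≤ 1 → C.Good (Function.update p i (p i + t * u))) :
    IsPatternPreserving n p z i u := by
  refine ⟨G.generalPosition D, ?_⟩
  rcases Nat.lt_or_ge 1 k with hk1 | hk1
  · refine ⟨2 * (k * n), C.W p, ?_, ?_⟩
    · rw [D.unionOf_eq]; exact G.boundary hk1
    · intro t ht0 ht1
      have G' := H t ht0 ht1
      refine ⟨G'.generalPosition D, C.W (Function.update p i (p i + t * u)), ?_, ?_⟩
      · rw [D.unionOf_eq]; exact G'.boundary hk1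
      · intro l hl j
        rw [D.polygon_eq, D.polygon_eq]
        obtain ⟨m, hm | hm⟩ := Nat.even_or_odd' l
        · rw [hm, W_even, W_even, G.V_mem_iff (by omega), G'.V_mem_iff (by omega)]
        · rw [hm, W_odd, W_odd, G.X_mem_iff (by omega), G'.X_mem_iff (by omega)]
  · have hk : k = 1 := le_antisymm hk1 C.hk
    have hsub : Subsingleton (Fin k) := by rw [hk]; infer_instance
    refine ⟨n, fun m : ℕ => C.V p m, ?_, ?_⟩
    · rw [D.unionOf_eq]; exact G.boundary_one hk
    · intro t ht0 ht1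
      have G' := H t ht0 ht1
      refine ⟨G'.generalPosition D, fun m : ℕ => C.V (Function.update p i (p i + t * u)) m, ?_, ?_⟩
      · rw [D.unionOf_eq]; exact G'.boundary_one hk
      · intro m hm j
        rw [D.polygon_eq, D.polygon_eq]
        have e : j = C.c m := Subsingleton.elim _ _
        rw [e]
        exact iff_of_true (C.V_mem _ _) (C.V_mem _ _)

end Cfg

/-- existence of basic setups with admissible markings -/
theorem exists_setup (k n : ℕ) (hk : 1 ≤ k) (hn : 3 ≤ n) (hkn : Nat.Coprime k n) :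
    ∃ z A : Fin k → ℂ, IsBasicSetup k n z ∧ IsMarking k n z A := by
  have hkR : (0 : ℝ) < k := by exact_mod_cast hk
  have hnR : (0 : ℝ) < n := by exact_mod_cast (by omega : 0 < n)
  have hn3 : (3 : ℝ) ≤ n := by exact_mod_cast hn
  have hp := pi_pos
  have hpos : 0 < π / n := by positivity
  have hlt : π / n < π := div_lt_self pi_pos (by linarith)
  have hsin : 0 < sin (π / n) := sin_pos_of_pos_of_lt_pi hpos hlt
  set R : ℝ := 1 / (2 * sin (π / n)) with hR
  have hRpos : 0 < R := by positivity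
  have hRc : (R : ℂ) ≠ 0 := by exact_mod_cast hRpos.ne'
  obtain ⟨w, u, huw⟩ : IsCoprime (k : ℤ) (n : ℤ) := Nat.isCoprime_iff_coprime.mpr hkn
  -- `w k + u n = 1`
  refine ⟨fun i => (R : ℂ) * ei (2 * π * (i : ℕ) / (k * n)),
    fun i => (R : ℂ) * ei (2 * π * (u * (i : ℕ)) / k), ⟨?_, ?_⟩, ⟨?_, ?_⟩⟩
  · intro i
    rw [vertex_eq, vertex_eq, dist_eq_norm]
    have e : 0 + (R : ℂ) * ei (2 * π * (i : ℕ) / (k * n)) * ei (2 * π * ((0 : ℤ) : ℝ) / n)
        - (0 + (R : ℂ) * ei (2 * π * (i : ℕ) / (k * n)) * ei (2 * π * ((1 : ℤ) : ℝ) / n))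
        = (R : ℂ) * ei (2 * π * (i : ℕ) / (k * n)) * (1 - ei (2 * π / n)) := by
      push_cast
      rw [mul_zero, zero_div, ei_zero, mul_one (2 * π)]
      ring
    rw [e, norm_mul, norm_mul, norm_one_sub_ei, norm_ei, Complex.norm_real, Real.norm_eq_abs,
      abs_of_pos hRpos]
    have e2 : 2 * π / n / 2 = π / n := by ring
    rw [e2, abs_of_pos hsin, hR]
    field_simp
  · refine ⟨0, (R : ℂ), hRc, ?_⟩
    ext x
    constructor
    · intro hx
      obtain ⟨i, j, rfl⟩ := mem_iUnion.mp hx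
      refine ⟨(i : ℕ) + k * j, ?_⟩
      rw [vertex_eq, vertex_eq, zero_add, zero_add, mul_assoc (R : ℂ), ← ei_add]
      congr 2
      push_cast
      field_simp
    · rintro ⟨m, rfl⟩
      have hkz : (k : ℤ) ≠ 0 := by exact_mod_cast (by omega : k ≠ 0)
      have h1 : m = (k : ℤ) * (m / k) + m % k := (Int.mul_ediv_add_emod m _).symm
      have h2 : 0 ≤ m % (k : ℤ) := Int.emod_nonneg m hkz
      have h3 : m % (k : ℤ) < k := Int.emod_lt_of_pos m (by exact_mod_cast hk)
      have h4 : (m % (k : ℤ)).toNat < k := by omega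
      apply mem_iUnion.mpr
      refine ⟨⟨(m % (k : ℤ)).toNat, h4⟩, m / k, ?_⟩
      have h5 : (((m % (k : ℤ)).toNat : ℕ) : ℝ) = ((m % (k : ℤ) : ℤ) : ℝ) := by
        exact_mod_cast Int.toNat_of_nonneg h2
      rw [vertex_eq, vertex_eq, zero_add, zero_add, mul_assoc (R : ℂ), ← ei_add]
      simp only [h5]
      congr 2
      have h6 : (m : ℝ) = k * ((m / k : ℤ) : ℝ) + ((m % k : ℤ) : ℝ) := by exact_mod_cast h1
      rw [h6]
      push_cast
      field_simp
      ring
  · intro i
    refine ⟨- w * (i : ℕ), ?_⟩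
    rw [vertex_eq, zero_add, mul_assoc (R : ℂ), ← ei_add]
    congr 1
    rw [ei_eq_iff]
    refine ⟨0, ?_⟩
    have h1 : (w : ℝ) * k + u * n = 1 := by exact_mod_cast huw
    have h2 : (u : ℝ) = (1 - w * k) / n := by field_simp; linarith
    rw [h2]
    push_cast
    field_simp
    ring
  · refine ⟨(R : ℂ), hRc, ?_⟩
    ext x
    constructor
    · rintro ⟨i, rfl⟩
      refine ⟨u * (i : ℕ), ?_⟩
      rw [vertex_eq, zero_add]
      push_cast
      rfl
    · rintro ⟨t, rfl⟩
      have hkz : (k : ℤ) ≠ 0 := by exact_mod_cast (by omega : k ≠ 0)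
      set m : ℤ := n * t with hm
      have h1 : m = (k : ℤ) * (m / k) + m % k := (Int.mul_ediv_add_emod m _).symm
      have h2 : 0 ≤ m % (k : ℤ) := Int.emod_nonneg m hkz
      have h3 : m % (k : ℤ) < k := Int.emod_lt_of_pos m (by exact_mod_cast hk)
      have h4 : (m % (k : ℤ)).toNat < k := by omega
      refine ⟨⟨(m % (k : ℤ)).toNat, h4⟩, ?_⟩
      have h5 : (((m % (k : ℤ)).toNat : ℕ) : ℝ) = ((m % (k : ℤ) : ℤ) : ℝ) := by
        exact_mod_cast Int.toNat_of_nonneg h2
      simp only [h5]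
      rw [vertex_eq, zero_add]
      congr 1
      rw [ei_eq_iff]
      refine ⟨-(w * t) - u * (m / k), ?_⟩
      have h6 : (m : ℝ) = k * ((m / k : ℤ) : ℝ) + ((m % k : ℤ) : ℝ) := by exact_mod_cast h1
      have h7 : ((m % k : ℤ) : ℝ) = n * t - k * ((m / k : ℤ) : ℝ) := by
        have : (m : ℝ) = n * t := by rw [hm]; push_cast; ring
        linarith
      have h8 : (w : ℝ) * k + u * n = 1 := by exact_mod_cast huw
      rw [h7]
      push_cast
      have h9 : (u : ℝ) * (n * t - k * ((m / k : ℤ) : ℝ)) = t - k * (w * t + u * ((m / k : ℤ) : ℝ)) := by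
        linear_combination (t : ℝ) * h8
      rw [h9]
      field_simp
      ring

theorem main (k n : ℕ) (hk : 1 ≤ k) (hn : 3 ≤ n) (hkn : Nat.Coprime k n) :
    (∃ z A : Fin k → ℂ, IsBasicSetup k n z ∧ IsMarking k n z A) ∧
    ∀ z A : Fin k → ℂ, IsBasicSetup k n z → IsMarking k n z A →
      ∃ ε₀ : ℝ, 0 < ε₀ ∧ ∀ ε : ℝ, 0 < ε → ε < ε₀ →
        IsShiftedSetup k n z A ε ∧
        (4 * tan (π / n) < ratio (unionOf n (fun i => ε * A i) z) ↔ 1 < k ∧ k ≡ 1 [MOD n]) := by
  refine ⟨exists_setup k n hk hn hkn, ?_⟩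
  intro z A hz hA
  obtain ⟨C, s, D⟩ := exists_data hk hn hz
  obtain ⟨P, α, hP, hPn, hv⟩ := D.marking hkn hA
  obtain ⟨δ, hδ, hgood⟩ := C.exists_delta
  have hR := C.R_pos
  have hAnorm : ∀ i, ‖A i‖ = C.R := by
    intro i
    have h1 := hv (s i)
    rw [D.cs] at h1
    rw [h1, norm_mul, norm_ei, Complex.norm_real, Real.norm_eq_abs, abs_of_pos hR, mul_one]
  refine ⟨δ / C.R, div_pos hδ hR, ?_⟩
  intro ε hε hεlt
  have hεR : ε * C.R < δ := by rwa [lt_div_iff₀ hR] at hεlt
  have hsmall : ∀ (t : ℝ) i, 0 ≤ t → t ≤ 1 → ‖(t : ℂ) * (ε * A i)‖ < δ := by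
    intro t i h0 h1
    rw [norm_mul, norm_mul, hAnorm, Complex.norm_real, Complex.norm_real, Real.norm_eq_abs,
      Real.norm_eq_abs, abs_of_pos hε, abs_of_nonneg h0]
    have : t * (ε * C.R) ≤ 1 * (ε * C.R) := mul_le_mul_of_nonneg_right h1 (by positivity)
    linarith
  have hstage : ∀ r i, ‖stage A ε r i‖ < δ := by
    intro r i
    unfold stage
    split_ifs
    · have := hsmall 1 i zero_le_one le_rfl
      simpa using this
    · simpa using hδ
  have hstage0 : ∀ i : Fin k, stage A ε i i = 0 := by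
    intro i; unfold stage; simp
  refine ⟨⟨hz, hA, hε, ?_, ?_⟩, ?_⟩
  · intro i
    apply Cfg.Good.pattern D (hgood _ (hstage _))
    intro t h0 h1
    apply hgood
    intro j
    by_cases hj : j = i
    · subst hj
      rw [Function.update_self, hstage0, zero_add]
      exact hsmall t j h0 h1
    · rw [Function.update_of_ne hj]
      exact hstage _ _
  · intro i
    rw [hstage0]
    obtain ⟨j, hj⟩ := hA.isVertex i
    exact ⟨j, ε, by rw [hj, sub_zero]⟩
  · rw [D.unionOf_eq]
    have G : C.Good (fun i => ε * A i) := by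
      apply hgood
      intro i
      have := hsmall 1 i zero_le_one le_rfl
      simpa using this
    apply G.ratio_iff (x := ε * C.R) (α := α) (P := P) hkn (by positivity) _ hP hPn
    intro m
    rw [hv]
    push_cast
    ring

end

end Pool.Agent.MP_7297ca_co
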