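import Pool.Agent.MP_7297ca_co.Star

namespace Pool.Agent.MP_7297ca_co

open Real MeasureTheory Set Filter Topology

noncomputable section

lemma ei_nat_mul (x : ℝ) (m : ℕ) : ei (m * x) = ei x ^ m := by
  simp only [ei]
  rw [← Complex.exp_nat_mul]
  congr 1
  push_cast
  ring

lemma sum_ei_eq_zero {M : ℕ} (hM : 0 < M) (q : ℤ) (hq : ¬ (M : ℤ) ∣ q) (φ : ℝ) :
    ∑ m ∈ Finset.range M, ei (φ + 2 * π * q * m / M) = 0 := by
  have hM' : (M : ℝ) ≠ 0 := by exact_mod_cast hM.ne'
  set z := ei (2 * π * q / M) with hz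
  have h1 : ∀ m ∈ Finset.range M, ei (φ + 2 * π * q * m / M) = ei φ * z ^ m := by
    intro m _
    rw [ei_add, hz, ← ei_nat_mul]
    congr 2
    ring
  rw [Finset.sum_congr rfl h1, ← Finset.mul_sum]
  have hzM : z ^ M = 1 := by
    rw [hz, ← ei_nat_mul]
    have : (M : ℝ) * (2 * π * q / M) = q * (2 * π) := by field_simp
    rw [this, ei]
    rw [Complex.exp_eq_one_iff]
    exact ⟨q, by push_cast; ring⟩
  have hz1 : z ≠ 1 := by
    intro h
    rw [hz, ei, Complex.exp_eq_one_iff] at h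
    obtain ⟨n, hn⟩ := h
    have h2 : 2 * π * q / M = n * (2 * π) := by
      have := congrArg Complex.im hn
      simpa using this
    have h3 : (q : ℝ) = n * M := by
      have h4 := pi_pos
      field_simp at h2
      linarith
    apply hq
    refine ⟨n, ?_⟩
    have : (q : ℝ) = ((M : ℤ) * n : ℤ) := by rw [h3]; push_cast; ring
    exact_mod_cast this
  have hg := geom_sum_mul z M
  rw [hzM, sub_self] at hg
  rcases mul_eq_zero.mp hg with h | h
  · rw [h, mul_zero]
  · exact absurd (sub_eq_zero.mp h) hz1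

lemma sum_cos_eq_zero {M : ℕ} (hM : 0 < M) (q : ℤ) (hq : ¬ (M : ℤ) ∣ q) (φ : ℝ) :
    ∑ m ∈ Finset.range M, cos (φ + 2 * π * q * m / M) = 0 := by
  have := congrArg Complex.re (sum_ei_eq_zero hM q hq φ)
  simpa using this

lemma cos_le_cos_of_mem {δ y : ℝ} (h0 : 0 ≤ δ) (h1 : δ ≤ y) (h2 : y ≤ 2 * π - δ) :
    cos y ≤ cos δ := by
  rcases le_total y π with h | h
  · exact cos_le_cos_of_nonneg_of_le_pi h0 h h1
  · have : cos y = cos (2 * π - y) := by rw [cos_two_pi_sub]
    rw [this]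
    exact cos_le_cos_of_nonneg_of_le_pi h0 (by linarith) (by linarith)

lemma cos_two_pi_mul_le {n : ℕ} (hn : 0 < n) (j : ℤ) :
    cos (2 * π * j / n + π / n) ≤ cos (π / n) := by
  have hn' : (0 : ℝ) < n := by exact_mod_cast hn
  have hnz : (n : ℤ) ≠ 0 := by exact_mod_cast hn.ne'
  have h1 : j = n * (j / n) + j % n := (Int.mul_ediv_add_emod j n).symm
  have h2 : 0 ≤ j % n := Int.emod_nonneg j hnz
  have h3 : j % n + 1 ≤ n := Int.emod_lt_of_pos j (by exact_mod_cast hn)
  set q := j / n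
  set s := j % n
  have h2' : (0 : ℝ) ≤ s := by exact_mod_cast h2
  have h3' : (s : ℝ) + 1 ≤ n := by exact_mod_cast h3
  have h4 : 2 * π * j / n + π / n = (2 * π * s / n + π / n) + q * (2 * π) := by
    rw [h1]; push_cast; field_simp; ring
  rw [h4, cos_add_int_mul_two_pi]
  have hp := pi_pos
  apply cos_le_cos_of_mem
  · positivity
  · have : 0 ≤ 2 * π * s / n := by positivity
    linarith
  · have h5 : 2 * π * s / n + π / n + π / n = 2 * π * (s + 1) / n := by ring
    have h6 : 2 * π * (s + 1) / n ≤ 2 * π := by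
      rw [div_le_iff₀ hn']
      nlinarith
    linarith

lemma cos_two_pi_mul_le' {n : ℕ} (hn : 0 < n) (j : ℤ) :
    cos (2 * π * j / n - π / n) ≤ cos (π / n) := by
  have h := cos_two_pi_mul_le hn (j - 1)
  have : 2 * π * ((j - 1 : ℤ) : ℝ) / n + π / n = 2 * π * j / n - π / n := by
    push_cast; ring
  rwa [this] at h

end

end Pool.Agent.MP_7297ca_co
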