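import Pool.Agent.MP_7297ca_co.Structure

namespace Pool.Agent.MP_7297ca_co

open Real MeasureTheory Set Filter Topology

noncomputable section

namespace Cfg

variable {k n : ℕ} (C : Cfg k n)

/-- the boundary vertices of the union, in cyclic order -/
def W (v : Fin k → ℂ) (l : ℕ) : ℂ :=
  if l % 2 = 0 then C.V v ((l / 2 : ℕ) : ℤ) else C.X v ((l / 2 : ℕ) : ℤ)

/-- the undisturbed angle of `W l` -/
def bang (l : ℕ) : ℝ := C.τ + l * C.η

/-- the angle of `W l` -/
def ang (v : Fin k → ℂ) (l : ℕ) : ℝ := C.bang l + Complex.arg (C.W v l * ei (-(C.bang l)))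

lemma W_even (v : Fin k → ℂ) (m : ℕ) : C.W v (2 * m) = C.V v m := by
  unfold W
  rw [if_pos (by omega)]
  congr 2
  omega

lemma W_odd (v : Fin k → ℂ) (m : ℕ) : C.W v (2 * m + 1) = C.X v m := by
  unfold W
  rw [if_neg (by omega)]
  congr 2
  omega

lemma bang_even (m : ℕ) : C.bang (2 * m) = C.θ m := by
  unfold bang θ η
  push_cast
  ring

lemma bang_odd (m : ℕ) : C.bang (2 * m + 1) = C.θ m + C.η := by
  unfold bang θ η
  push_cast
  ring

/-- conditions (satisfied by all small displacements) under which the union keeps the pattern of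
the basic setup. -/
structure Good (v : Fin k → ℂ) : Prop where
  small : ∀ i, ‖v i‖ < C.ρ
  A : ∀ m < k * n, ∀ s < k, 1 ≤ s → C.ρ + dot (v (C.c ((m : ℤ) + s))) (C.a' ((m : ℤ) + s)) <
    dot (C.V v m) (C.a' ((m : ℤ) + s))
  B : ∀ m < k * n, ∀ s < k, 2 ≤ s → C.ρ + dot (v (C.c ((m : ℤ) + s))) (C.a' ((m : ℤ) + s)) <
    dot (C.X v m) (C.a' ((m : ℤ) + s))
  A' : ∀ m < k * n, ∀ s < k, 1 ≤ s →
    C.ρ + dot (v (C.c ((m : ℤ) + 1 - s))) (C.a ((m : ℤ) + 1 - s)) <
    dot (C.V v (m + 1)) (C.a ((m : ℤ) + 1 - s))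
  B' : ∀ m < k * n, ∀ s < k, 2 ≤ s →
    C.ρ + dot (v (C.c ((m : ℤ) + 1 - s))) (C.a ((m : ℤ) + 1 - s)) <
    dot (C.X v m) (C.a ((m : ℤ) + 1 - s))
  l0 : ∀ m < k * n, 0 < C.ℓ v m
  l1 : ∀ m < k * n, C.ℓ v m < 1
  l0' : ∀ m < k * n, 0 < C.ℓ' v m
  l1' : ∀ m < k * n, C.ℓ' v m < 1
  E : ∀ l < 2 * (k * n), |Complex.arg (C.W v l * ei (-(C.bang l)))| < C.η / 2

lemma V_zero (m : ℤ) : C.V 0 m = (C.R : ℂ) * ei (C.θ m) := by
  unfold V; simp

lemma w_zero (m : ℤ) : C.w 0 m = 0 := by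
  unfold w; simp

lemma ℓ_zero (m : ℤ) : C.ℓ 0 m = C.L0 := by
  unfold ℓ; rw [w_zero, dot_zero_left]; simp

lemma ℓ'_zero (m : ℤ) : C.ℓ' 0 m = C.L0 := by
  unfold ℓ'; rw [w_zero, dot_zero_left]; simp

lemma X_zero (m : ℤ) : C.X 0 m = ((C.ρ / cos C.β : ℝ) : ℂ) * ei (C.θ m + C.η) := by
  unfold X a
  rw [ℓ_zero, V_zero]
  have h1 := C.cos_β_pos
  have hL : C.L0 * cos C.β = C.R * sin C.η := by
    unfold L0; field_simp
  have hρ : C.ρ / cos C.β = C.R * cos C.η - C.L0 * sin C.β := by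
    rw [div_eq_iff h1.ne']
    have h2 : C.ρ = C.R * (cos C.η * cos C.β - sin C.η * sin C.β) := by
      unfold ρ
      rw [← cos_add, β_eq]
      congr 2
      ring
    rw [h2]
    linear_combination (sin C.β) * hL
  have e1 : C.θ m + π / n = (C.θ m + C.η) + C.β := by rw [β_eq]; ring
  have e2 : ei (C.θ m) = ei ((C.θ m + C.η) - C.η) := by congr 1; ring
  rw [e1, e2, hρ]
  apply Complex.ext
  · simp only [Complex.add_re, ei_re, Complex.re_ofReal_mul, Complex.I_mul_re, ei_im]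
    rw [cos_sub (C.θ m + C.η), sin_add (C.θ m + C.η)]
    linear_combination (- sin (C.θ m + C.η)) * hL
  · simp only [Complex.add_im, ei_im, Complex.im_ofReal_mul, Complex.I_mul_im, ei_re]
    rw [sin_sub (C.θ m + C.η), cos_add (C.θ m + C.η)]
    linear_combination (cos (C.θ m + C.η)) * hL

lemma cont_V (m : ℤ) : Continuous (fun v => C.V v m) := by
  unfold V; fun_prop

lemma cont_w (m : ℤ) : Continuous (fun v => C.w v m) := by
  unfold w; fun_prop

lemma cont_ℓ (m : ℤ) : Continuous (fun v => C.ℓ v m) := by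
  unfold ℓ
  exact continuous_const.sub (((continuous_dot_left _).comp (C.cont_w m)).div_const _)

lemma cont_ℓ' (m : ℤ) : Continuous (fun v => C.ℓ' v m) := by
  unfold ℓ'
  exact continuous_const.add (((continuous_dot_left _).comp (C.cont_w m)).div_const _)

lemma cont_X (m : ℤ) : Continuous (fun v => C.X v m) := by
  unfold X
  exact (C.cont_V m).add ((Complex.continuous_ofReal.comp (C.cont_ℓ m)).mul continuous_const)

lemma cont_W (l : ℕ) : Continuous (fun v => C.W v l) := by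
  unfold W
  split_ifs
  · exact C.cont_V _
  · exact C.cont_X _

lemma k_mul_η : k * C.η = π / n := by
  have := C.kpos; have := C.npos
  unfold η; field_simp

lemma W_zero (l : ℕ) : ∃ r : ℝ, 0 < r ∧ C.W 0 l = r * ei (C.bang l) := by
  obtain ⟨m, hm | hm⟩ := Nat.even_or_odd' l
  · rw [hm, W_even, bang_even, V_zero]
    exact ⟨C.R, C.R_pos, rfl⟩
  · rw [hm, W_odd, bang_odd, X_zero]
    exact ⟨_, div_pos C.ρ_pos C.cos_β_pos, rfl⟩

lemma evt_small : ∀ᶠ v : Fin k → ℂ in 𝓝 0, ∀ i, ‖v i‖ < C.ρ := by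
  rw [eventually_all]
  intro i
  have hc : Continuous (fun v : Fin k → ℂ => ‖v i‖) := by fun_prop
  apply hc.continuousAt.eventually_lt continuousAt_const
  simpa using C.ρ_pos

lemma evt_lt {f g : (Fin k → ℂ) → ℝ} (hf : Continuous f) (hg : Continuous g) (h : f 0 < g 0) :
    ∀ᶠ v : Fin k → ℂ in 𝓝 0, f v < g v :=
  hf.continuousAt.eventually_lt hg.continuousAt h

lemma evt_ball {p : ℕ → (Fin k → ℂ) → Prop} (N : ℕ) (h : ∀ m < N, ∀ᶠ v : Fin k → ℂ in 𝓝 0, p m v) :
    ∀ᶠ v : Fin k → ℂ in 𝓝 0, ∀ m < N, p m v := by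
  have := (eventually_all_finset (Finset.range N) (l := 𝓝 (0 : Fin k → ℂ)) (p := p)).mpr
    (fun m hm => h m (Finset.mem_range.mp hm))
  filter_upwards [this] with v hv m hm
  exact hv m (Finset.mem_range.mpr hm)

lemma cont_hd (i : Fin k) (ν : ℂ) :
    Continuous (fun v : Fin k → ℂ => C.ρ + dot (v i) ν) :=
  continuous_const.add ((continuous_dot_left ν).comp (continuous_apply i))

lemma s_bounds {s : ℕ} (hs : s < k) : ((s : ℝ) + 1) * C.η ≤ π / n := by
  rw [← C.k_mul_η]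
  have : (s : ℝ) + 1 ≤ k := by exact_mod_cast hs
  exact mul_le_mul_of_nonneg_right this C.η_pos.le

lemma evt_A (m : ℤ) {s : ℕ} (hs : s < k) (h1 : 1 ≤ s) : ∀ᶠ v : Fin k → ℂ in 𝓝 0,
    C.ρ + dot (v (C.c (m + s))) (C.a' (m + s)) < dot (C.V v m) (C.a' (m + s)) := by
  apply evt_lt (C.cont_hd _ _) ((continuous_dot_left _).comp (C.cont_V m))
  simp only [Function.comp_apply]
  rw [V_zero, Pi.zero_apply, dot_zero_left, add_zero]
  unfold a' ρ
  rw [dot_real_mul_ei, θ_add]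
  apply mul_lt_mul_of_pos_left _ C.R_pos
  have hb := C.s_bounds hs
  have hη := C.η_pos
  have h1' : (1 : ℝ) ≤ s := by exact_mod_cast h1
  apply cos_lt_cos_of_abs_lt
  · push_cast
    rw [abs_lt]
    constructor <;> nlinarith
  · linarith [C.pin_le, pi_pos]

lemma evt_A' (m : ℤ) {s : ℕ} (hs : s < k) (h1 : 1 ≤ s) : ∀ᶠ v : Fin k → ℂ in 𝓝 0,
    C.ρ + dot (v (C.c (m + 1 - s))) (C.a (m + 1 - s)) <
    dot (C.V v (m + 1)) (C.a (m + 1 - s)) := by
  apply evt_lt (C.cont_hd _ _) ((continuous_dot_left _).comp (C.cont_V (m + 1)))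
  simp only [Function.comp_apply]
  rw [V_zero, Pi.zero_apply, dot_zero_left, add_zero]
  unfold a ρ
  have e : m + 1 - (s : ℤ) = m + 1 + (-(s : ℤ)) := by ring
  rw [dot_real_mul_ei, e, θ_add (m := m + 1)]
  apply mul_lt_mul_of_pos_left _ C.R_pos
  have hb := C.s_bounds hs
  have hη := C.η_pos
  have h1' : (1 : ℝ) ≤ s := by exact_mod_cast h1
  apply cos_lt_cos_of_abs_lt
  · push_cast
    rw [abs_lt]
    constructor <;> nlinarith
  · linarith [C.pin_le, pi_pos]

lemma evt_B (m : ℤ) {s : ℕ} (hs : s < k) (h1 : 2 ≤ s) : ∀ᶠ v : Fin k → ℂ in 𝓝 0,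
    C.ρ + dot (v (C.c (m + s))) (C.a' (m + s)) < dot (C.X v m) (C.a' (m + s)) := by
  apply evt_lt (C.cont_hd _ _) ((continuous_dot_left _).comp (C.cont_X m))
  simp only [Function.comp_apply]
  rw [X_zero, Pi.zero_apply, dot_zero_left, add_zero]
  unfold a'
  rw [dot_real_mul_ei, θ_add]
  have hb := C.s_bounds hs
  have hη := C.η_pos
  have h1' : (2 : ℝ) ≤ s := by exact_mod_cast h1
  have hc : cos C.β < cos (C.θ m + C.η - (C.θ m + 2 * ((s : ℤ) : ℝ) * C.η - π / n)) := by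
    apply cos_lt_cos_of_abs_lt
    · rw [β_eq]
      push_cast
      rw [abs_lt]
      constructor <;> nlinarith
    · linarith [C.β_lt, C.pin_le, pi_pos]
  have hcb := C.cos_β_pos
  rw [div_mul_eq_mul_div, lt_div_iff₀ hcb]
  exact mul_lt_mul_of_pos_left hc C.ρ_pos

lemma evt_B' (m : ℤ) {s : ℕ} (hs : s < k) (h1 : 2 ≤ s) : ∀ᶠ v : Fin k → ℂ in 𝓝 0,
    C.ρ + dot (v (C.c (m + 1 - s))) (C.a (m + 1 - s)) <
    dot (C.X v m) (C.a (m + 1 - s)) := by
  apply evt_lt (C.cont_hd _ _) ((continuous_dot_left _).comp (C.cont_X m))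
  simp only [Function.comp_apply]
  rw [X_zero, Pi.zero_apply, dot_zero_left, add_zero]
  unfold a
  have e : m + 1 - (s : ℤ) = m + (1 -(s : ℤ)) := by ring
  rw [dot_real_mul_ei, e, θ_add]
  have hb := C.s_bounds hs
  have hη := C.η_pos
  have h1' : (2 : ℝ) ≤ s := by exact_mod_cast h1
  have hc : cos C.β < cos (C.θ m + C.η - (C.θ m + 2 * ((1 - (s : ℤ) : ℤ) : ℝ) * C.η + π / n)) := by
    apply cos_lt_cos_of_abs_lt
    · rw [β_eq]
      push_cast
      rw [abs_lt]
      constructor <;> nlinarith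
    · linarith [C.β_lt, C.pin_le, pi_pos]
  have hcb := C.cos_β_pos
  rw [div_mul_eq_mul_div, lt_div_iff₀ hcb]
  exact mul_lt_mul_of_pos_left hc C.ρ_pos

lemma evt_E (l : ℕ) : ∀ᶠ v : Fin k → ℂ in 𝓝 0,
    |Complex.arg (C.W v l * ei (-(C.bang l)))| < C.η / 2 := by
  obtain ⟨r, hr, hW⟩ := C.W_zero l
  have hval : C.W 0 l * ei (-(C.bang l)) = (r : ℂ) := by
    rw [hW, mul_assoc, ← ei_add, add_neg_cancel, ei_zero, mul_one]
  have h1 : ContinuousAt (fun v => Complex.arg (C.W v l * ei (-(C.bang l)))) 0 := by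
    apply ContinuousAt.comp (g := Complex.arg) (f := fun v => C.W v l * ei (-(C.bang l)))
    · apply Complex.continuousAt_arg
      rw [hval]
      exact Complex.ofReal_mem_slitPlane.mpr hr
    · exact ((C.cont_W l).mul continuous_const).continuousAt
  apply h1.abs.eventually_lt continuousAt_const
  rw [hval, Complex.arg_ofReal_of_nonneg hr.le, abs_zero]
  exact half_pos C.η_pos

theorem evt_good : ∀ᶠ v : Fin k → ℂ in 𝓝 0, C.Good v := by
  have hA := evt_ball (k * n) (fun m _ => evt_ball k (fun s hs => by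
    by_cases h1 : 1 ≤ s
    · filter_upwards [C.evt_A m hs h1, C.evt_A' m hs h1] with v hv hv'
      exact fun _ : 1 ≤ s => And.intro hv hv'
    · exact Eventually.of_forall (fun v h => absurd h h1)))
  have hB := evt_ball (k * n) (fun m _ => evt_ball k (fun s hs => by
    by_cases h1 : 2 ≤ s
    · filter_upwards [C.evt_B m hs h1, C.evt_B' m hs h1] with v hv hv'
      exact fun _ : 2 ≤ s => And.intro hv hv'
    · exact Eventually.of_forall (fun v h => absurd h h1)))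
  have h0 := evt_ball (k * n) (fun m _ => evt_lt (f := fun _ => 0) (g := fun v => C.ℓ v m)
    continuous_const (C.cont_ℓ m) (by rw [ℓ_zero]; exact C.L0_pos))
  have h1 := evt_ball (k * n) (fun m _ => evt_lt (g := fun _ => 1) (f := fun v => C.ℓ v m)
    (C.cont_ℓ m) continuous_const (by rw [ℓ_zero]; exact C.L0_lt_one))
  have h0' := evt_ball (k * n) (fun m _ => evt_lt (f := fun _ => 0) (g := fun v => C.ℓ' v m)
    continuous_const (C.cont_ℓ' m) (by rw [ℓ'_zero]; exact C.L0_pos))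
  have h1' := evt_ball (k * n) (fun m _ => evt_lt (g := fun _ => 1) (f := fun v => C.ℓ' v m)
    (C.cont_ℓ' m) continuous_const (by rw [ℓ'_zero]; exact C.L0_lt_one))
  have hE := evt_ball (2 * (k * n)) (fun l _ => C.evt_E l)
  filter_upwards [C.evt_small, hA, hB, h0, h1, h0', h1', hE] with v g1 g2 g3 g4 g5 g6 g7 g8
  exact ⟨g1, fun m hm s hs h => (g2 m hm s hs h).1, fun m hm s hs h => (g3 m hm s hs h).1,
    fun m hm s hs h => (g2 m hm s hs h).2, fun m hm s hs h => (g3 m hm s hs h).2,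
    g4, g5, g6, g7, g8⟩

end Cfg

end

end Pool.Agent.MP_7297ca_co
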