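import Pool.Agent.MP_7297ca_co.Union

namespace Pool.Agent.MP_7297ca_co

open Real MeasureTheory Set Filter Topology

noncomputable section

lemma sum_range_two_mul {f : ℕ → ℝ} (N : ℕ) :
    ∑ l ∈ Finset.range (2 * N), f l = ∑ m ∈ Finset.range N, (f (2 * m) + f (2 * m + 1)) := by
  induction N with
  | zero => simp
  | succ N ih =>
    have : 2 * (N + 1) = 2 * N + 1 + 1 := by ring
    rw [this, Finset.sum_range_succ, Finset.sum_range_succ, Finset.sum_range_succ, ih]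
    ring

namespace Cfg

variable {k n : ℕ} {C : Cfg k n}

lemma cross_V_X (v : Fin k → ℂ) (m : ℤ) :
    cross (C.V v m) (C.X v m) = C.ℓ v m * (C.ρ + dot (v (C.c m)) (C.a m)) := by
  rw [← dot_V_a]
  unfold X cross dot
  simp
  ring

lemma cross_X_V (v : Fin k → ℂ) (m : ℤ) :
    cross (C.X v m) (C.V v (m + 1)) = C.ℓ' v m * (C.ρ + dot (v (C.c (m + 1))) (C.b m)) := by
  rw [b_eq_a', ← dot_V_a', ← b_eq_a', X_eq']
  unfold cross dot
  simp
  ring

lemma norm_a (m : ℤ) : ‖C.a m‖ = 1 := norm_ei _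

lemma norm_b (m : ℤ) : ‖C.b m‖ = 1 := norm_ei _

lemma Good.perimeter {v : Fin k → ℂ} (G : C.Good v) :
    ((μH[1] : Measure ℂ) (frontier (⋃ i, C.Q v i))).toReal =
      ∑ m ∈ Finset.range (k * n), (C.ℓ v m + C.ℓ' v m) := by
  have : Nonempty (Fin k) := ⟨C.c 0⟩
  rw [G.star.hausdorff_frontier, ENNReal.toReal_ofReal (Finset.sum_nonneg fun _ _ => norm_nonneg _),
    sum_range_two_mul]
  refine Finset.sum_congr rfl fun m hm => ?_
  have hmk := Finset.mem_range.mp hm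
  have e1 : 2 * m + 1 + 1 = 2 * (m + 1) := by ring
  rw [e1, W_even, W_odd, W_even]
  congr 1
  · have : C.X v m - C.V v m = (C.ℓ v m : ℂ) * (Complex.I * C.a m) := by unfold X; ring
    rw [this, norm_mul, norm_mul, norm_a, Complex.norm_I, Complex.norm_real, Real.norm_eq_abs,
      abs_of_pos (G.l0 m hmk)]
    ring
  · push_cast
    have : C.V v (m + 1) - C.X v m = (C.ℓ' v m : ℂ) * (Complex.I * C.b m) := by
      rw [X_eq']; ring
    rw [this, norm_mul, norm_mul, norm_b, Complex.norm_I, Complex.norm_real, Real.norm_eq_abs,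
      abs_of_pos (G.l0' m hmk)]
    ring

lemma Good.area {v : Fin k → ℂ} (G : C.Good v) :
    (volume (⋃ i, C.Q v i)).toReal =
      ∑ m ∈ Finset.range (k * n), (C.ℓ v m * (C.ρ + dot (v (C.c m)) (C.a m)) +
        C.ℓ' v m * (C.ρ + dot (v (C.c (m + 1))) (C.b m))) / 2 := by
  have : Nonempty (Fin k) := ⟨C.c 0⟩
  rw [G.star.volume_eq, ENNReal.toReal_ofReal, sum_range_two_mul]
  · refine Finset.sum_congr rfl fun m hm => ?_
    have e1 : 2 * m + 1 + 1 = 2 * (m + 1) := by ring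
    rw [e1, W_even, W_odd, W_even]
    push_cast
    rw [cross_V_X, cross_X_V]
    ring
  · exact Finset.sum_nonneg fun l hl =>
      (div_pos (G.fan.cross_pos (Finset.mem_range.mp hl)) two_pos).le

lemma Good.area_pos {v : Fin k → ℂ} (G : C.Good v) : 0 < (volume (⋃ i, C.Q v i)).toReal := by
  rw [G.area]
  apply Finset.sum_pos
  · intro m hm
    have hmk := Finset.mem_range.mp hm
    have h1 := G.l0 m hmk
    have h2 := G.l0' m hmk
    have h3 : 0 < C.ρ + dot (v (C.c m)) (C.a m) := G.dot_small _ _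
    have h4 : 0 < C.ρ + dot (v (C.c (m + 1))) (C.b m) := G.dot_small _ _
    positivity
  · exact ⟨0, Finset.mem_range.mpr C.kn_pos⟩

variable (C)

lemma sum_cos {q : ℤ} (hq : ¬ ((k * n : ℕ) : ℤ) ∣ q) (φ : ℝ) :
    ∑ m ∈ Finset.range (k * n), cos (φ + 2 * q * m * C.η) = 0 := by
  have h := sum_cos_eq_zero C.kn_pos q hq φ
  rw [← h]
  refine Finset.sum_congr rfl fun m _ => ?_
  congr 2
  unfold η
  push_cast
  ring

section special

variable {C}
variable {v : Fin k → ℂ} {x α : ℝ} {P : ℤ}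

lemma θ_nat (m : ℕ) : C.θ (m : ℤ) = C.τ + 2 * m * C.η := by
  unfold θ η
  push_cast
  ring

lemma θ_nat_succ (m : ℕ) : C.θ ((m : ℤ) + 1) = C.τ + 2 * m * C.η + 2 * C.η := by
  rw [θ_succ, θ_nat]

lemma S3 (hv : ∀ m : ℤ, v (C.c m) = (x : ℂ) * ei (α + 2 * P * m * C.η))
    (hq : ¬ ((k * n : ℕ) : ℤ) ∣ P - 1) :
    ∑ m ∈ Finset.range (k * n), dot (v (C.c m)) (C.a m) = 0 := by
  have h := C.sum_cos hq (α - C.τ - C.η - C.β)
  rw [← mul_zero x, ← h, Finset.mul_sum]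
  refine Finset.sum_congr rfl fun m _ => ?_
  rw [hv, a_eq, dot_real_mul_ei, θ_nat]
  congr 2
  push_cast
  ring

lemma S3' (hv : ∀ m : ℤ, v (C.c m) = (x : ℂ) * ei (α + 2 * P * m * C.η))
    (hq : ¬ ((k * n : ℕ) : ℤ) ∣ P - 1) :
    ∑ m ∈ Finset.range (k * n), dot (v (C.c m)) (C.b m) = 0 := by
  have h := C.sum_cos hq (α - C.τ - C.η + C.β)
  rw [← mul_zero x, ← h, Finset.mul_sum]
  refine Finset.sum_congr rfl fun m _ => ?_
  rw [hv, b_eq, dot_real_mul_ei, θ_nat]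
  congr 2
  push_cast
  ring

lemma S4 (hv : ∀ m : ℤ, v (C.c m) = (x : ℂ) * ei (α + 2 * P * m * C.η))
    (hq : ¬ ((k * n : ℕ) : ℤ) ∣ P - 1) :
    ∑ m ∈ Finset.range (k * n), dot (v (C.c (m + 1))) (C.b m) = 0 := by
  have h := C.sum_cos hq (α + 2 * P * C.η - C.τ - C.η + C.β)
  rw [← mul_zero x, ← h, Finset.mul_sum]
  refine Finset.sum_congr rfl fun m _ => ?_
  rw [hv, b_eq, dot_real_mul_ei, θ_nat]
  congr 2
  push_cast
  ring

lemma S4' (hv : ∀ m : ℤ, v (C.c m) = (x : ℂ) * ei (α + 2 * P * m * C.η))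
    (hq : ¬ ((k * n : ℕ) : ℤ) ∣ P - 1) :
    ∑ m ∈ Finset.range (k * n), dot (v (C.c (m + 1))) (C.a m) = 0 := by
  have h := C.sum_cos hq (α + 2 * P * C.η - C.τ - C.η - C.β)
  rw [← mul_zero x, ← h, Finset.mul_sum]
  refine Finset.sum_congr rfl fun m _ => ?_
  rw [hv, a_eq, dot_real_mul_ei, θ_nat]
  congr 2
  push_cast
  ring

lemma S1 (hv : ∀ m : ℤ, v (C.c m) = (x : ℂ) * ei (α + 2 * P * m * C.η))
    (hq : ¬ ((k * n : ℕ) : ℤ) ∣ P - 1) :
    ∑ m ∈ Finset.range (k * n), dot (C.w v m) (C.a m) = 0 := by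
  have h1 := S3 hv hq
  have h2 := S4' hv hq
  unfold w
  simp_rw [dot_sub_left]
  rw [Finset.sum_sub_distrib, h1, h2, sub_zero]

lemma S2 (hv : ∀ m : ℤ, v (C.c m) = (x : ℂ) * ei (α + 2 * P * m * C.η))
    (hq : ¬ ((k * n : ℕ) : ℤ) ∣ P - 1) :
    ∑ m ∈ Finset.range (k * n), dot (C.w v m) (C.b m) = 0 := by
  have h1 := S3' hv hq
  have h2 := S4 hv hq
  unfold w
  simp_rw [dot_sub_left]
  rw [Finset.sum_sub_distrib, h1, h2, sub_zero]

lemma two_cos_mul_cos (s t : ℝ) : cos s * cos t = (cos (s + t) + cos (s - t)) / 2 := by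
  rw [cos_add, cos_sub]; ring

lemma S5 (hv : ∀ m : ℤ, v (C.c m) = (x : ℂ) * ei (α + 2 * P * m * C.η))
    (hq : ¬ ((k * n : ℕ) : ℤ) ∣ 2 * (P - 1)) :
    ∑ m ∈ Finset.range (k * n), (dot (C.w v m) (C.a m) * dot (v (C.c (m + 1))) (C.b m) -
      dot (C.w v m) (C.b m) * dot (v (C.c m)) (C.a m)) =
      (k * n : ℕ) * (x ^ 2 * (cos (2 * C.β) - cos (2 * P * C.η + 2 * C.β))) := by
  have h1 := C.sum_cos hq (2 * (α + 2 * P * C.η) - 2 * (C.τ + C.η))
  have h2 := C.sum_cos hq (2 * α - 2 * (C.τ + C.η))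
  have h3 := C.sum_cos hq (2 * α + 2 * P * C.η - 2 * (C.τ + C.η))
  have key : ∀ m ∈ Finset.range (k * n),
      (dot (C.w v m) (C.a m) * dot (v (C.c (m + 1))) (C.b m) -
      dot (C.w v m) (C.b m) * dot (v (C.c m)) (C.a m)) =
      x ^ 2 * (cos (2 * C.β) - cos (2 * P * C.η + 2 * C.β)) +
      x ^ 2 / 2 * cos (2 * (α + 2 * P * C.η) - 2 * (C.τ + C.η) + 2 * (2 * (P - 1) : ℤ) * m * C.η) +
      x ^ 2 / 2 * cos (2 * α - 2 * (C.τ + C.η) + 2 * (2 * (P - 1) : ℤ) * m * C.η) -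
      x ^ 2 * cos (2 * α + 2 * P * C.η - 2 * (C.τ + C.η) + 2 * (2 * (P - 1) : ℤ) * m * C.η) := by
    intro m _
    unfold w
    rw [dot_sub_left, dot_sub_left, hv, hv, a_eq, b_eq, dot_real_mul_ei, dot_real_mul_ei,
      dot_real_mul_ei, dot_real_mul_ei, θ_nat]
    set A := α + 2 * P * ((m + 1 : ℤ) : ℝ) * C.η - (C.τ + 2 * m * C.η + C.η + C.β) with hA
    set B := α + 2 * P * ((m + 1 : ℤ) : ℝ) * C.η - (C.τ + 2 * m * C.η + C.η - C.β) with hB
    set D := α + 2 * P * ((m : ℤ) : ℝ) * C.η - (C.τ + 2 * m * C.η + C.η + C.β) with hD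
    set E := α + 2 * P * ((m : ℤ) : ℝ) * C.η - (C.τ + 2 * m * C.η + C.η - C.β) with hE
    have e1 : cos A * cos B = (cos (2 * (α + 2 * P * C.η) - 2 * (C.τ + C.η)
        + 2 * (2 * (P - 1) : ℤ) * m * C.η) + cos (2 * C.β)) / 2 := by
      rw [two_cos_mul_cos, ← cos_neg (A - B)]
      congr 3
      · rw [hA, hB]; push_cast; ring
      · rw [hA, hB]; ring
    have e2 : cos D * cos B = (cos (2 * α + 2 * P * C.η - 2 * (C.τ + C.η)
        + 2 * (2 * (P - 1) : ℤ) * m * C.η) + cos (2 * P * C.η + 2 * C.β)) / 2 := by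
      rw [two_cos_mul_cos, ← cos_neg (D - B)]
      congr 3
      · rw [hD, hB]; push_cast; ring
      · rw [hD, hB]; push_cast; ring
    have e3 : cos E * cos D = (cos (2 * α - 2 * (C.τ + C.η)
        + 2 * (2 * (P - 1) : ℤ) * m * C.η) + cos (2 * C.β)) / 2 := by
      rw [two_cos_mul_cos]
      congr 3
      · rw [hE, hD]; push_cast; ring
      · rw [hE, hD]; ring
    have e4 : (x * cos A - x * cos D) * (x * cos B) - (x * cos B - x * cos E) * (x * cos D)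
        = x ^ 2 * (cos A * cos B) - 2 * x ^ 2 * (cos D * cos B) + x ^ 2 * (cos E * cos D) := by
      ring
    rw [e4, e1, e2, e3]
    ring
  rw [Finset.sum_congr rfl key, Finset.sum_sub_distrib, Finset.sum_add_distrib,
    Finset.sum_add_distrib, Finset.sum_const, ← Finset.mul_sum, ← Finset.mul_sum,
    ← Finset.mul_sum, h1, h2, h3]
  rw [Finset.card_range, nsmul_eq_mul]
  ring

theorem Good.perimeter_special (G : C.Good v)
    (hv : ∀ m : ℤ, v (C.c m) = (x : ℂ) * ei (α + 2 * P * m * C.η))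
    (hq : ¬ ((k * n : ℕ) : ℤ) ∣ P - 1) :
    ((μH[1] : Measure ℂ) (frontier (⋃ i, C.Q v i))).toReal = 2 * (k * n : ℕ) * C.L0 := by
  rw [G.perimeter]
  unfold ℓ ℓ'
  rw [Finset.sum_add_distrib, Finset.sum_sub_distrib, Finset.sum_add_distrib, ← Finset.sum_div,
    ← Finset.sum_div, S1 hv hq, S2 hv hq]
  rw [Finset.sum_const, Finset.card_range, nsmul_eq_mul]
  ring

theorem Good.area_special (G : C.Good v)
    (hv : ∀ m : ℤ, v (C.c m) = (x : ℂ) * ei (α + 2 * P * m * C.η))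
    (hq : ¬ ((k * n : ℕ) : ℤ) ∣ P - 1) (hq2 : ¬ ((k * n : ℕ) : ℤ) ∣ 2 * (P - 1)) :
    (volume (⋃ i, C.Q v i)).toReal = (k * n : ℕ) * C.ρ * C.L0 +
      (k * n : ℕ) * (x ^ 2 * (cos (2 * C.β) - cos (2 * P * C.η + 2 * C.β))) /
        (2 * sin (2 * C.β)) := by
  rw [G.area]
  have key : ∀ m ∈ Finset.range (k * n),
      (C.ℓ v m * (C.ρ + dot (v (C.c m)) (C.a m)) +
        C.ℓ' v m * (C.ρ + dot (v (C.c (m + 1))) (C.b m))) / 2 =
      C.ρ * C.L0 + (C.ρ / (2 * sin (2 * C.β))) * dot (C.w v m) (C.a m)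
        - (C.ρ / (2 * sin (2 * C.β))) * dot (C.w v m) (C.b m)
        + (C.L0 / 2) * dot (v (C.c m)) (C.a m) + (C.L0 / 2) * dot (v (C.c (m + 1))) (C.b m)
        + (1 / (2 * sin (2 * C.β))) * (dot (C.w v m) (C.a m) * dot (v (C.c (m + 1))) (C.b m) -
      dot (C.w v m) (C.b m) * dot (v (C.c m)) (C.a m)) := by
    intro m _
    unfold ℓ ℓ'
    ring
  rw [Finset.sum_congr rfl key, Finset.sum_add_distrib, Finset.sum_add_distrib,
    Finset.sum_add_distrib, Finset.sum_sub_distrib, Finset.sum_add_distrib, Finset.sum_const,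
    ← Finset.mul_sum, ← Finset.mul_sum, ← Finset.mul_sum, ← Finset.mul_sum, ← Finset.mul_sum,
    S1 hv hq, S2 hv hq, S3 hv hq, S4 hv hq, S5 hv hq2]
  rw [Finset.card_range, nsmul_eq_mul]
  ring

end special

end Cfg

end

end Pool.Agent.MP_7297ca_co
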