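import Pool.Agent.MP_7297ca_co.Ratio

namespace Pool.Agent.MP_7297ca_co

open Real MeasureTheory Set Filter Topology

noncomputable section

/-! ### polygonal curves -/

lemma lin_side_eq {x y : ℂ} (h : x ≠ y) : lin x y '' side = segment ℝ x y \ {y} := by
  rw [side_eq, segment_eq_image_lineMap]
  ext w
  constructor
  · rintro ⟨s, hs, rfl⟩
    refine ⟨⟨s, ⟨hs.1, hs.2.le⟩, rfl⟩, ?_⟩
    rw [mem_singleton_iff]
    intro he
    have h1 : AffineMap.lineMap x y s = AffineMap.lineMap x y (1 : ℝ) := by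
      rw [he]; simp
    have := AffineMap.lineMap_injective ℝ h h1
    linarith [hs.2]
  · rintro ⟨⟨s, hs, rfl⟩, hne⟩
    refine ⟨s, ⟨hs.1, lt_of_le_of_ne hs.2 ?_⟩, rfl⟩
    rintro rfl
    apply hne
    simp

lemma left_mem_side (x y : ℂ) : x ∈ lin x y '' side := by
  refine ⟨1, ⟨?_, ?_, ?_⟩, ?_⟩ <;> simp [lin_apply]

lemma iUnion_side_eq {l : ℕ} (hl : 0 < l) {A : ℕ → ℂ} (hper : ∀ m, A (m + l) = A m)
    (hne : ∀ m, A m ≠ A (m + 1)) :
    (⋃ m ∈ Finset.range l, lin (A m) (A (m + 1)) '' side) = ⋃ m, segment ℝ (A m) (A (m + 1)) := by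
  have hmod : ∀ m, A (m % l) = A m := by
    intro m
    have h1 : ∀ q a, A (a + l * q) = A a := by
      intro q
      induction q with
      | zero => intro a; simp
      | succ q ih =>
        intro a
        have : a + l * (q + 1) = (a + l * q) + l := by ring
        rw [this, hper, ih]
    conv_rhs => rw [← Nat.mod_add_div m l]
    rw [h1]
  have hmod1 : ∀ m, A (m % l + 1) = A (m + 1) := by
    intro m
    rw [← hmod (m % l + 1), ← hmod (m + 1)]
    congr 1
    simp [Nat.add_mod]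
  ext x
  simp only [mem_iUnion, Finset.mem_range]
  constructor
  · rintro ⟨m, _, hx⟩
    rw [lin_side_eq (hne m)] at hx
    exact ⟨m, hx.1⟩
  · rintro ⟨m, hx⟩
    by_cases h : x = A (m + 1)
    · refine ⟨(m + 1) % l, Nat.mod_lt _ hl, ?_⟩
      rw [h, hmod]
      exact left_mem_side _ _
    · refine ⟨m % l, Nat.mod_lt _ hl, ?_⟩
      rw [lin_side_eq (hne (m % l)), hmod, hmod1]
      exact ⟨hx, h⟩

lemma not_collinear {x y z : ℂ} (h : cross (y - x) (z - y) ≠ 0) : ¬ Collinear ℝ {x, y, z} := by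
  intro hc
  rw [collinear_iff_of_mem (p₀ := y) (by simp)] at hc
  obtain ⟨v, hv⟩ := hc
  obtain ⟨r, hr⟩ := hv x (by simp)
  obtain ⟨s, hs⟩ := hv z (by simp)
  apply h
  rw [hr, hs]
  simp [cross]
  ring

lemma midpoint_side (x d : ℂ) :
    lin x (x + (1 / 2 : ℝ) * d) '' side ∪ lin (x + (1 / 2 : ℝ) * d) (x + d) '' side
      = lin x (x + d) '' side := by
  rw [side_eq, side_eq, side_eq]
  ext w
  constructor
  · rintro (⟨s, hs, rfl⟩ | ⟨s, hs, rfl⟩)
    · refine ⟨s / 2, ⟨by linarith [hs.1], by linarith [hs.2]⟩, ?_⟩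
      simp only [AffineMap.lineMap_apply, vsub_eq_sub, vadd_eq_add, Complex.real_smul]
      push_cast
      ring
    · refine ⟨1 / 2 + s / 2, ⟨by linarith [hs.1], by linarith [hs.2]⟩, ?_⟩
      simp only [AffineMap.lineMap_apply, vsub_eq_sub, vadd_eq_add, Complex.real_smul]
      push_cast
      ring
  · rintro ⟨s, hs, rfl⟩
    rcases lt_or_ge s (1 / 2) with h | h
    · left
      refine ⟨2 * s, ⟨by linarith [hs.1], by linarith⟩, ?_⟩
      simp only [AffineMap.lineMap_apply, vsub_eq_sub, vadd_eq_add, Complex.real_smul]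
      push_cast
      ring
    · right
      refine ⟨2 * s - 1, ⟨by linarith, by linarith [hs.2]⟩, ?_⟩
      simp only [AffineMap.lineMap_apply, vsub_eq_sub, vadd_eq_add, Complex.real_smul]
      push_cast
      ring

namespace Cfg

variable {k n : ℕ} {C : Cfg k n}

lemma reduce (C : Cfg k n) {α : Type*} {F : ℤ → α} (hF : ∀ m, F (m + k * n) = F m) (m : ℤ) :
    ∃ m' : ℕ, m' < k * n ∧ ∃ q : ℤ, m = m' + k * n * q ∧ F m = F m' := by
  have hpos : (0 : ℤ) < k * n := by exact_mod_cast C.kn_pos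
  have h1 : m = (k * n : ℤ) * (m / (k * n)) + m % (k * n) := (Int.mul_ediv_add_emod m _).symm
  have h2 : 0 ≤ m % (k * n : ℤ) := Int.emod_nonneg m hpos.ne'
  have h3 : m % (k * n : ℤ) < k * n := Int.emod_lt_of_pos m hpos
  have hnat : ∀ (q : ℕ) (a : ℤ), F (a + k * n * q) = F a := by
    intro q
    induction q with
    | zero => intro a; simp
    | succ q ih =>
      intro a
      have : a + (k : ℤ) * n * ((q + 1 : ℕ) : ℤ) = (a + k * n * q) + k * n := by push_cast; ring
      rw [this, hF, ih]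
  have hint : ∀ (q : ℤ) (a : ℤ), F (a + k * n * q) = F a := by
    intro q a
    obtain ⟨q', hq | hq⟩ := q.eq_nat_or_neg
    · rw [hq]; exact hnat q' a
    · rw [hq]
      have h := hnat q' (a + k * n * (-(q' : ℤ)))
      rw [← h]
      congr 1
      ring
  refine ⟨(m % (k * n : ℤ)).toNat, ?_, m / (k * n), ?_, ?_⟩
  · have h4 : (((m % (k * n : ℤ)).toNat : ℕ) : ℤ) < ((k * n : ℕ) : ℤ) := by
      rw [Int.toNat_of_nonneg h2]; push_cast; exact h3
    exact_mod_cast h4
  · rw [Int.toNat_of_nonneg h2]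
    linarith
  · rw [Int.toNat_of_nonneg h2]
    conv_lhs => rw [h1, add_comm]
    exact hint _ _

lemma Good.ℓ_pos {v : Fin k → ℂ} (G : C.Good v) (m : ℤ) : 0 < C.ℓ v m := by
  obtain ⟨m', hm', -, -, h⟩ := C.reduce (F := C.ℓ v) (by
    intro m; unfold ℓ; rw [w_add_kn, b_add_kn]) m
  rw [h]
  exact G.l0 m' hm'

lemma Good.ℓ'_pos {v : Fin k → ℂ} (G : C.Good v) (m : ℤ) : 0 < C.ℓ' v m := by
  obtain ⟨m', hm', -, -, h⟩ := C.reduce (F := C.ℓ' v) (by
    intro m; unfold ℓ'; rw [w_add_kn, a_add_kn]) m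
  rw [h]
  exact G.l0' m' hm'

lemma Good.V_not_mem {v : Fin k → ℂ} (G : C.Good v) {m : ℕ} (hm : m < k * n) {j : Fin k}
    (hj : j ≠ C.c m) : C.V v m ∉ C.Q v j := by
  obtain ⟨s, hs, hsj⟩ := C.surj m j
  have h1 : 1 ≤ s := by
    rcases Nat.eq_zero_or_pos s with h | h
    · subst h
      rw [Nat.cast_zero, add_zero] at hsj
      exact absurd hsj.symm hj
    · exact h
  intro hmem
  have h2 := G.A m hm s hs h1
  rw [← hsj] at hmem
  have h3 := C.support_a' v (m + s) hmem
  linarith

lemma Good.V_not_mem' {v : Fin k → ℂ} (G : C.Good v) {m : ℤ} {j : Fin k}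
    (hj : j ≠ C.c m) : C.V v m ∉ C.Q v j := by
  obtain ⟨m', hm', q, hq, h⟩ := C.reduce (F := C.V v) (fun m => C.V_add_kn v m) m
  rw [h]
  apply G.V_not_mem hm'
  have : C.c m = C.c m' := by
    rw [hq]
    have e : (m' : ℤ) + k * n * q = m' + k * (n * q) := by ring
    rw [e, C.period_mul]
  rwa [← this]

lemma Good.V_mem_iff {v : Fin k → ℂ} (G : C.Good v) {m : ℕ} (hm : m < k * n) (j : Fin k) :
    C.V v m ∈ C.Q v j ↔ j = C.c m := by
  constructor
  · intro h
    by_contra hne
    exact G.V_not_mem hm hne h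
  · rintro rfl
    exact C.V_mem v m

lemma Good.X_mem_iff {v : Fin k → ℂ} (G : C.Good v) {m : ℕ} (hm : m < k * n) (j : Fin k) :
    C.X v m ∈ C.Q v j ↔ j = C.c m ∨ j = C.c ((m : ℤ) + 1) := by
  constructor
  · intro hmem
    obtain ⟨s, hs, hsj⟩ := C.surj m j
    rcases Nat.lt_or_ge 1 s with h | h
    · exfalso
      have h2 := G.B m hm s hs h
      rw [← hsj] at hmem
      have h3 := C.support_a' v (m + s) hmem
      linarith
    · rcases Nat.lt_or_ge 0 s with h' | h'
      · have : s = 1 := by omega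
        subst this
        right
        rw [← hsj, Nat.cast_one]
      · have : s = 0 := by omega
        subst this
        left
        rw [← hsj, Nat.cast_zero, add_zero]
  · rintro (rfl | rfl)
    · exact C.X_mem v m (G.l0 m hm).le (G.l1 m hm).le
    · exact C.X_mem' v m (G.l0' m hm).le (G.l1' m hm).le

/-- general position of good configurations -/
lemma Good.generalPosition {v : Fin k → ℂ} (G : C.Good v) {s : Fin k → ℤ} {z : Fin k → ℂ}
    (D : IsData C s z) : GeneralPosition n v z := by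
  intro i j hij a b hmem
  rw [D.vertex_eq_V, D.vertex_eq_V, D.vertex_eq_V] at hmem
  have h1 : C.V v (s i + k * a) ∈ C.Q v j := by
    have h2 : C.V v (s j + k * b) ∈ C.Q v j := by
      have := C.V_mem' v (s j) b
      rwa [D.cs] at this
    have h3 : C.V v (s j + k * (b + 1)) ∈ C.Q v j := by
      have := C.V_mem' v (s j) (b + 1)
      rwa [D.cs] at this
    exact (convex_convexHull ℝ _).segment_subset h2 h3 hmem
  have h4 : C.c (s i + k * a) = i := by rw [C.period_mul, D.cs]
  exact G.V_not_mem' (by rw [h4]; exact hij.symm) h1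

lemma cross_smul_I (x y : ℝ) (a b : ℂ) :
    cross ((x : ℂ) * (Complex.I * a)) ((y : ℂ) * (Complex.I * b)) = x * y * cross a b := by
  simp [cross]; ring

lemma V_sub_X (v : Fin k → ℂ) (m : ℤ) :
    C.V v (m + 1) - C.X v m = (C.ℓ' v m : ℂ) * (Complex.I * C.b m) := by
  rw [X_eq']; ring

lemma X_sub_V (v : Fin k → ℂ) (m : ℤ) :
    C.X v m - C.V v m = (C.ℓ v m : ℂ) * (Complex.I * C.a m) := by
  unfold X; ring

lemma cross_a_b (m : ℤ) : cross (C.a m) (C.b m) = - sin (2 * C.β) := by
  rw [← cross_b_a]; simp [cross]; ring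

lemma cross_b_a_succ (m : ℤ) : cross (C.b m) (C.a (m + 1)) = sin (2 * (π / n)) := by
  unfold b a
  rw [cross_ei]; congr 1; ring

include C in
lemma sin_two_pin_pos : 0 < sin (2 * (π / n)) := by
  apply sin_pos_of_pos_of_lt_pi
  · have := C.pin_pos; linarith
  · have := C.pin_le; linarith [pi_pos]

lemma Good.W_ne_succ {v : Fin k → ℂ} (G : C.Good v) (l : ℕ) : C.W v l ≠ C.W v (l + 1) := by
  intro h
  obtain ⟨m, hm | hm⟩ := Nat.even_or_odd' l
  · rw [hm, W_even, W_odd] at h
    have h1 := C.X_sub_V v m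
    rw [← h, sub_self] at h1
    have h2 := congrArg norm h1
    rw [norm_zero, norm_mul, norm_mul, norm_a, Complex.norm_I, Complex.norm_real, Real.norm_eq_abs,
      abs_of_pos (G.ℓ_pos m)] at h2
    have := G.ℓ_pos m
    linarith
  · have hl1 : l + 1 = 2 * (m + 1) := by omega
    rw [hl1, hm, W_even, W_odd] at h
    push_cast at h
    have h1 := C.V_sub_X v m
    rw [← h, sub_self] at h1
    have h2 := congrArg norm h1
    rw [norm_zero, norm_mul, norm_mul, norm_b, Complex.norm_I, Complex.norm_real, Real.norm_eq_abs,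
      abs_of_pos (G.ℓ'_pos m)] at h2
    have := G.ℓ'_pos m
    linarith

lemma sin_two_β_pos (hk1 : 1 < k) : 0 < sin (2 * C.β) := by
  have hk1' : (1 : ℝ) < k := by exact_mod_cast hk1
  have hβpos : 0 < 2 * C.β := by
    have h2β : 2 * C.β = 2 * (k - 1) * C.η := by
      rw [β_eq, ← C.k_mul_η]; ring
    rw [h2β]
    have := C.η_pos
    have : 0 < (k : ℝ) - 1 := by linarith
    positivity
  exact sin_pos_of_pos_of_lt_pi hβpos C.two_β_lt

/-- boundary of the union, `k ≥ 2` -/
lemma Good.boundary {v : Fin k → ℂ} (G : C.Good v) (hk1 : 1 < k) :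
    HasSimplePolygonalBoundary (⋃ i, C.Q v i) (2 * (k * n)) (C.W v) where
  three_le := by
    have h1 := C.hn
    have h2 : n ≤ k * n := Nat.le_mul_of_pos_left n (by omega)
    omega
  periodic := C.W_add v
  corner := by
    intro l hl
    apply not_collinear
    obtain ⟨m, hm | hm⟩ := Nat.even_or_odd' l
    · have hl2 : l + 2 = 2 * (m + 1) := by omega
      rw [hl2, hm, W_even, W_odd, W_even]
      push_cast
      rw [X_sub_V, V_sub_X, cross_smul_I, cross_a_b]
      have h1 := G.ℓ_pos m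
      have h2 := G.ℓ'_pos m
      have h3 := C.sin_two_β_pos hk1
      have : 0 < C.ℓ v m * C.ℓ' v m * sin (2 * C.β) := by positivity
      intro h
      linarith
    · have hl1 : l + 1 = 2 * (m + 1) := by omega
      have hl2 : l + 2 = 2 * (m + 1) + 1 := by omega
      rw [hl2, hl1, hm, W_even, W_odd, W_odd]
      push_cast
      rw [X_sub_V, V_sub_X, cross_smul_I, cross_b_a_succ]
      have h1 := G.ℓ_pos (m + 1)
      have h2 := G.ℓ'_pos m
      have h3 := C.sin_two_pin_pos
      positivity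
  simple := by
    intro m hm m' hm' hne
    rw [← lin_side_eq (G.W_ne_succ m), ← lin_side_eq (G.W_ne_succ m')]
    exact G.star.pairwise (s := side) (fun w hw => ⟨hw.1, hw.2.1⟩) (by simpa using hm)
      (by simpa using hm') hne
  frontier_eq := by
    have : Nonempty (Fin k) := ⟨C.c 0⟩
    rw [G.star.frontier_eq]
    exact iUnion_side_eq (by have := C.kn_pos; omega) (C.W_add v) G.W_ne_succ

end Cfg

end

end Pool.Agent.MP_7297ca_co
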