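import Pool.Agent.MP_7297ca_co.Bridge

namespace Pool.Agent.MP_7297ca_co

open Real MeasureTheory Set Filter Topology

noncomputable section

namespace Cfg

variable {k n : ℕ} (C : Cfg k n)

lemma two_div_ρ : 4 * tan (π / n) = 2 / C.ρ := by
  have h1 := C.sin_pin_pos
  have h2 := C.cos_pin_pos
  unfold ρ R
  rw [tan_eq_sin_div_cos]
  field_simp
  norm_num

include C in
lemma not_dvd_of {P : ℤ} (hn : (n : ℤ) ∣ P) : ¬ ((k * n : ℕ) : ℤ) ∣ 2 * (P - 1) := by
  intro h
  have h1 : (n : ℤ) ∣ 2 * (P - 1) := by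
    refine dvd_trans ?_ h
    push_cast
    exact Dvd.intro_left _ rfl
  have h2 : (n : ℤ) ∣ 2 := by
    have h3 : (n : ℤ) ∣ 2 * P := Dvd.dvd.mul_left hn 2
    have h4 := dvd_sub h3 h1
    have h5 : 2 * P - 2 * (P - 1) = 2 := by ring
    rwa [h5] at h4
  have h3 := Int.le_of_dvd two_pos h2
  have := C.hn
  omega

include C in
lemma not_dvd_of' {P : ℤ} (hn : (n : ℤ) ∣ P) : ¬ ((k * n : ℕ) : ℤ) ∣ P - 1 := by
  intro h
  exact C.not_dvd_of hn (Dvd.dvd.mul_left h 2)

lemma cos_lt_of_not_dvd {n : ℕ} (hn : 3 ≤ n) {p : ℤ} (hp : ¬ (n : ℤ) ∣ p) :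
    cos (2 * π * p / n) ≤ cos (2 * π / n) := by
  have hn0 : 0 < n := by omega
  have hn' : (0 : ℝ) < n := by exact_mod_cast hn0
  have hnz : (n : ℤ) ≠ 0 := by exact_mod_cast hn0.ne'
  have h1 : p = n * (p / n) + p % n := (Int.mul_ediv_add_emod p n).symm
  have h2 : 1 ≤ p % n := by
    have h3 := Int.emod_nonneg p hnz
    have h4 : p % n ≠ 0 := fun h => hp (Int.dvd_of_emod_eq_zero h)
    omega
  have h3 : p % n + 1 ≤ n := Int.emod_lt_of_pos p (by exact_mod_cast hn0)
  set q := p / n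
  set s := p % n
  have h2' : (1 : ℝ) ≤ s := by exact_mod_cast h2
  have h3' : (s : ℝ) + 1 ≤ n := by exact_mod_cast h3
  have h4 : 2 * π * p / n = 2 * π * s / n + q * (2 * π) := by
    rw [h1]; push_cast; field_simp; ring
  rw [h4, cos_add_int_mul_two_pi]
  have hp := pi_pos
  apply cos_le_cos_of_mem
  · positivity
  · apply div_le_div_of_nonneg_right _ hn'.le
    nlinarith
  · have h5 : 2 * π * s / n + 2 * π / n = 2 * π * (s + 1) / n := by ring
    have h6 : 2 * π * (s + 1) / n ≤ 2 * π := by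
      rw [div_le_iff₀ hn']
      nlinarith
    linarith

/-- sign of the second variation of the area -/
lemma sign {P : ℤ} (hkn : Nat.Coprime k n) (hk1 : 1 < k) (hP : (k : ℤ) ∣ P - 1)
    (hPn : (n : ℤ) ∣ P) :
    (k ≡ 1 [MOD n] → cos (2 * C.β) - cos (2 * P * C.η + 2 * C.β) < 0) ∧
    (¬ k ≡ 1 [MOD n] → 0 < cos (2 * C.β) - cos (2 * P * C.η + 2 * C.β)) := by
  obtain ⟨u, hu⟩ := hP
  have hk := C.kpos
  have hn := C.npos
  -- `P + k - 1 = k p`
  set p : ℤ := u + 1 with hp
  have hPp : P + k - 1 = k * p := by rw [hp]; linarith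
  have h2β : 2 * C.β = 2 * (k - 1) * C.η := by
    rw [β_eq, ← C.k_mul_η]; ring
  have harg : 2 * P * C.η + 2 * C.β = 2 * π * p / n := by
    rw [h2β]
    have h1 : ((P : ℝ) + k - 1) = k * p := by exact_mod_cast hPp
    have h2 : 2 * P * C.η + 2 * (k - 1) * C.η = 2 * (P + k - 1) * C.η := by ring
    rw [h2, h1]
    have h3 := C.k_mul_η
    have h4 : 2 * ((k : ℝ) * p) * C.η = 2 * p * (k * C.η) := by ring
    rw [h4, h3]
    ring
  have hiff : (n : ℤ) ∣ p ↔ k ≡ 1 [MOD n] := by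
    have h1 : k ≡ 1 [MOD n] ↔ (n : ℤ) ∣ (k : ℤ) - 1 := by
      rw [Nat.ModEq.comm, Nat.modEq_iff_dvd]
      push_cast
      rfl
    rw [h1]
    have hkn' : IsCoprime (n : ℤ) (k : ℤ) := (Nat.isCoprime_iff_coprime.mpr hkn).symm
    constructor
    · intro h
      have h2 : (n : ℤ) ∣ P + k - 1 := by rw [hPp]; exact Dvd.dvd.mul_left h _
      have h3 := dvd_sub h2 hPn
      have h4 : P + k - 1 - P = (k : ℤ) - 1 := by ring
      rwa [h4] at h3
    · intro h
      have h2 : (n : ℤ) ∣ k * p := by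
        rw [← hPp]
        have : P + (k : ℤ) - 1 = P + (k - 1) := by ring
        rw [this]
        exact dvd_add hPn h
      exact hkn'.dvd_of_dvd_mul_left h2
  have hk1' : (1 : ℝ) < k := by exact_mod_cast hk1
  have hβpos : 0 < 2 * C.β := by
    rw [h2β]
    have := C.η_pos
    have : 0 < (k : ℝ) - 1 := by linarith
    positivity
  have hβlt : 2 * C.β < 2 * π / n := by
    have := C.β_lt
    have h : 2 * π / n = 2 * (π / n) := by ring
    linarith
  constructor
  · intro h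
    obtain ⟨q, hq⟩ := hiff.mpr h
    rw [harg, hq]
    have h5 : 2 * π * ((n * q : ℤ) : ℝ) / n = q * (2 * π) := by
      push_cast; field_simp
    rw [h5, cos_int_mul_two_pi]
    have h6 : cos (2 * C.β) < cos 0 := by
      apply cos_lt_cos_of_nonneg_of_le_pi le_rfl C.two_β_lt.le hβpos
    rw [cos_zero] at h6
    linarith
  · intro h
    have h1 : ¬ (n : ℤ) ∣ p := fun hd => h (hiff.mp hd)
    have h2 := cos_lt_of_not_dvd C.hn h1
    rw [harg]
    have h3 : cos (2 * π / n) < cos (2 * C.β) := by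
      apply cos_lt_cos_of_nonneg_of_le_pi hβpos.le _ hβlt
      have h4 := C.pin_le
      have h5 : 2 * π / n = 2 * (π / n) := by ring
      rw [h5]
      linarith [pi_pos]
    linarith

/-- The ratio of the union of the displaced polygons, compared with the ratio of one polygon. -/
theorem Good.ratio_iff {C : Cfg k n} {v : Fin k → ℂ} (G : C.Good v) {x α : ℝ} {P : ℤ}
    (hkn : Nat.Coprime k n) (hx : x ≠ 0)
    (hv : ∀ m : ℤ, v (C.c m) = (x : ℂ) * ei (α + 2 * P * m * C.η))
    (hP : (k : ℤ) ∣ P - 1) (hPn : (n : ℤ) ∣ P) :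
    4 * tan (π / n) < ratio (⋃ i, C.Q v i) ↔ 1 < k ∧ k ≡ 1 [MOD n] := by
  have hper := G.perimeter_special hv (C.not_dvd_of' hPn)
  have hareq := G.area_special hv (C.not_dvd_of' hPn) (C.not_dvd_of hPn)
  have hapos := G.area_pos
  unfold ratio _root_.Pool.Agent.MP_7297ca_co.perimeter _root_.Pool.Agent.MP_7297ca_co.area
  rw [hper]
  rw [C.two_div_ρ, div_lt_div_iff₀ C.ρ_pos hapos, hareq]
  set K := ((k * n : ℕ) : ℝ) * (x ^ 2 * (cos (2 * C.β) - cos (2 * P * C.η + 2 * C.β))) /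
    (2 * sin (2 * C.β)) with hK
  have hkn0 : (0 : ℝ) < ((k * n : ℕ) : ℝ) := by exact_mod_cast C.kn_pos
  have hstep : 2 * (((k * n : ℕ) : ℝ) * C.ρ * C.L0 + K) < 2 * ((k * n : ℕ) : ℝ) * C.L0 * C.ρ ↔
      K < 0 := by
    constructor
    · intro h; nlinarith
    · intro h; nlinarith
  rw [hstep]
  rcases Nat.lt_or_ge 1 k with hk1 | hk1
  · have hs := C.sign hkn hk1 hP hPn
    have hk1' : (1 : ℝ) < k := by exact_mod_cast hk1
    have hβpos : 0 < 2 * C.β := by
      have h2β : 2 * C.β = 2 * (k - 1) * C.η := by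
        rw [β_eq, ← C.k_mul_η]; ring
      rw [h2β]
      have := C.η_pos
      have : 0 < (k : ℝ) - 1 := by linarith
      positivity
    have hsin : 0 < sin (2 * C.β) := sin_pos_of_pos_of_lt_pi hβpos C.two_β_lt
    have hx2 : 0 < x ^ 2 := by positivity
    constructor
    · intro h
      refine ⟨hk1, ?_⟩
      by_contra hne
      have h1 := hs.2 hne
      have h2 : 0 < K := by
        rw [hK]; positivity
      linarith
    · rintro ⟨-, h⟩
      have h1 := hs.1 h
      rw [hK]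
      apply div_neg_of_neg_of_pos
      · exact mul_neg_of_pos_of_neg hkn0 (mul_neg_of_pos_of_neg hx2 h1)
      · positivity
  · have hk : k = 1 := le_antisymm hk1 C.hk
    constructor
    · intro h
      exfalso
      have hβ : C.β = 0 := by
        unfold β; rw [hk]; push_cast; rw [one_mul, sub_self]
      rw [hK, hβ] at h
      simp at h
    · rintro ⟨h, -⟩
      omega

end Cfg

end

end Pool.Agent.MP_7297ca_co
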