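import Pool.Agent.MP_7297ca_co.Fan

namespace Pool.Agent.MP_7297ca_co

open Real MeasureTheory Set

noncomputable section

lemma dot_add_left (x y z : ℂ) : dot (x + y) z = dot x z + dot y z := by
  simp [dot]; ring

lemma dot_smul_left (a : ℝ) (x z : ℂ) : dot ((a : ℂ) * x) z = a * dot x z := by
  simp [dot]; ring

lemma dot_lin (x y w z : ℂ) : dot (lin x y w) z = w.re * dot x z + w.im * dot y z := by
  rw [lin_apply, dot_add_left, dot_smul_left, dot_smul_left]

/-- A finite family of closed convex sets whose union is a star-shaped polygon with vertices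
`W 0, …, W (N-1)`. -/
structure StarUnion {ι : Type*} (N : ℕ) (W : ℕ → ℂ) (r t : ℕ → ℝ) (Q : ι → Set ℂ) : Prop where
  fan : Fan N W r t
  closeW : W N = W 0
  convex : ∀ i, Convex ℝ (Q i)
  closed : ∀ i, IsClosed (Q i)
  int : ∀ i, (0 : ℂ) ∈ interior (Q i)
  mem : ∀ l < N, ∃ i, W l ∈ Q i ∧ W (l + 1) ∈ Q i
  supp : ∀ l < N, ∀ i, ∃ ν : ℂ, ∃ h : ℝ, 0 < h ∧ (∀ x ∈ Q i, dot x ν ≤ h) ∧
    h ≤ dot (W l) ν ∧ h ≤ dot (W (l + 1)) ν

namespace StarUnion

variable {ι : Type*} {N : ℕ} {W : ℕ → ℂ} {r t : ℕ → ℝ} {Q : ι → Set ℂ}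

lemma mem_iff (S : StarUnion N W r t Q) {l : ℕ} (hl : l < N) {w : ℂ} (hw : w ∈ quad) :
    lin (W l) (W (l + 1)) w ∈ ⋃ i, Q i ↔ w.re + w.im ≤ 1 := by
  constructor
  · intro h
    obtain ⟨i, hi⟩ := mem_iUnion.mp h
    obtain ⟨ν, c, hc, hQ, h1, h2⟩ := S.supp l hl i
    have h3 := hQ _ hi
    rw [dot_lin] at h3
    have h4 : w.re * c ≤ w.re * dot (W l) ν := mul_le_mul_of_nonneg_left h1 hw.1.le
    have h5 : w.im * c ≤ w.im * dot (W (l + 1)) ν := mul_le_mul_of_nonneg_left h2 hw.2
    have h6 : (w.re + w.im) * c ≤ 1 * c := by linarith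
    exact le_of_mul_le_mul_right h6 hc
  · intro h
    obtain ⟨i, h1, h2⟩ := S.mem l hl
    apply mem_iUnion.mpr
    refine ⟨i, ?_⟩
    have h0 : (0 : ℂ) ∈ Q i := interior_subset (S.int i)
    have := (S.convex i).sum_mem (t := Finset.univ) (w := ![w.re, w.im, 1 - w.re - w.im])
      (z := ![W l, W (l + 1), 0])
    simp only [Finset.mem_univ, Fin.sum_univ_three, forall_const] at this
    simp only [Matrix.cons_val_zero, Matrix.cons_val_one, Matrix.cons_val_two] at this
    have h7 := this (by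
      intro j; fin_cases j
      · exact hw.1.le
      · exact hw.2
      · simp; linarith) (by simp) (by
      intro j; fin_cases j
      · exact h1
      · exact h2
      · exact h0)
    rw [lin_apply]
    simpa using h7

lemma isClosed [Finite ι] (S : StarUnion N W r t Q) : IsClosed (⋃ i, Q i) :=
  isClosed_iUnion_of_finite S.closed

lemma mem_zero [Nonempty ι] (S : StarUnion N W r t Q) : (0 : ℂ) ∈ interior (⋃ i, Q i) := by
  obtain ⟨i⟩ := ‹Nonempty ι›
  exact interior_mono (subset_iUnion Q i) (S.int i)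

lemma eq_iUnion [Nonempty ι] (S : StarUnion N W r t Q) :
    (⋃ i, Q i) = {0} ∪ ⋃ l ∈ Finset.range N, lin (W l) (W (l + 1)) '' tri := by
  ext x
  constructor
  · intro hx
    rcases eq_or_ne x 0 with rfl | h0
    · left; rfl
    · right
      obtain ⟨l, hl, w, hw, rfl⟩ := S.fan.exists_mem h0
      simp only [mem_iUnion, Finset.mem_range]
      exact ⟨l, hl, w, ⟨hw.1, hw.2, (S.mem_iff hl hw).mp hx⟩, rfl⟩
  · rintro (hx | hx)
    · rw [mem_singleton_iff.mp hx]
      exact interior_subset S.mem_zero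
    · simp only [mem_iUnion, Finset.mem_range] at hx
      obtain ⟨l, hl, w, hw, rfl⟩ := hx
      exact (S.mem_iff hl ⟨hw.1, hw.2.1⟩).mpr hw.2.2

lemma pairwise (S : StarUnion N W r t Q) {s : Set ℂ} (hs : s ⊆ quad) :
    ((Finset.range N : Finset ℕ) : Set ℕ).PairwiseDisjoint
      (fun l => lin (W l) (W (l + 1)) '' s) := by
  intro l hl m hm hne
  rw [Function.onFun, Set.disjoint_left]
  intro x hxl hxm
  simp only [Finset.coe_range, mem_Iio] at hl hm
  exact hne (S.fan.unique hl hm (image_mono hs hxl) (image_mono hs hxm))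

lemma volume_eq [Nonempty ι] (S : StarUnion N W r t Q) :
    volume (⋃ i, Q i) =
      ENNReal.ofReal (∑ l ∈ Finset.range N, cross (W l) (W (l + 1)) / 2) := by
  have hc : ∀ l ∈ Finset.range N, 0 < cross (W l) (W (l + 1)) := fun l hl =>
    S.fan.cross_pos (Finset.mem_range.mp hl)
  rw [S.eq_iUnion]
  have h1 : volume (({0} : Set ℂ) ∪ ⋃ l ∈ Finset.range N, lin (W l) (W (l + 1)) '' tri)
      = volume (⋃ l ∈ Finset.range N, lin (W l) (W (l + 1)) '' tri) := by
    apply le_antisymm
    · refine (measure_union_le _ _).trans ?_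
      simp
    · exact measure_mono subset_union_right
  rw [h1, measure_biUnion_finset]
  · rw [ENNReal.ofReal_sum_of_nonneg (fun l hl => (div_pos (hc l hl) two_pos).le)]
    exact Finset.sum_congr rfl fun l hl => volume_lin_tri _ _ (hc l hl)
  · exact S.pairwise (fun w hw => ⟨hw.1, hw.2.1⟩)
  · intro l hl
    exact (measurableEmbedding_lin _ _ (hc l hl).ne').measurableSet_image.mpr measurableSet_tri

lemma smul_mem_interior [Nonempty ι] (S : StarUnion N W r t Q) {x : ℂ} {a : ℝ} (hx : x ∈ ⋃ i, Q i)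
    (ha : 0 ≤ a) (ha1 : a < 1) : (a : ℂ) * x ∈ interior (⋃ i, Q i) := by
  obtain ⟨i, hi⟩ := mem_iUnion.mp hx
  have := (S.convex i).combo_interior_self_mem_interior (S.int i) hi
    (sub_pos.mpr ha1) ha (by ring)
  have h2 := interior_mono (subset_iUnion Q i) this
  simpa using h2

lemma frontier_eq [Nonempty ι] [Finite ι] (S : StarUnion N W r t Q) :
    frontier (⋃ i, Q i) = ⋃ l ∈ Finset.range N, lin (W l) (W (l + 1)) '' side := by
  rw [S.isClosed.frontier_eq]
  ext x
  simp only [mem_sdiff, mem_iUnion, Finset.mem_range]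
  constructor
  · rintro ⟨hx, hxi⟩
    have hx' : x ∈ ⋃ i, Q i := mem_iUnion.mpr hx
    have h0 : x ≠ 0 := by
      rintro rfl
      exact hxi S.mem_zero
    obtain ⟨l, hl, w, hw, rfl⟩ := S.fan.exists_mem h0
    have h1 := (S.mem_iff hl hw).mp hx'
    refine ⟨l, hl, w, ⟨hw.1, hw.2, ?_⟩, rfl⟩
    by_contra hne
    have hlt : w.re + w.im < 1 := lt_of_le_of_ne h1 hne
    apply hxi
    have hs : 0 < w.re + w.im := add_pos_of_pos_of_nonneg hw.1 hw.2
    set c := w.re + w.im with hc
    have hw2 : (((c⁻¹ : ℝ) : ℂ) * w) ∈ quad := by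
      constructor
      · simp only [Complex.mul_re, Complex.ofReal_re, Complex.ofReal_im]
        have := mul_pos (inv_pos.mpr hs) hw.1
        simpa using this
      · simp only [Complex.mul_im, Complex.ofReal_re, Complex.ofReal_im]
        have := mul_nonneg (inv_pos.mpr hs).le hw.2
        simpa using this
    have h3 : lin (W l) (W (l + 1)) (((c⁻¹ : ℝ) : ℂ) * w) ∈ ⋃ i, Q i := by
      rw [S.mem_iff hl hw2]
      have : (((c⁻¹ : ℝ) : ℂ) * w).re + (((c⁻¹ : ℝ) : ℂ) * w).im = c⁻¹ * c := by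
        rw [Complex.re_ofReal_mul, Complex.im_ofReal_mul, ← mul_add]
      rw [this, inv_mul_cancel₀ hs.ne']
    have h4 := S.smul_mem_interior h3 hs.le hlt
    have h5 : (c : ℂ) * lin (W l) (W (l + 1)) (((c⁻¹ : ℝ) : ℂ) * w) = lin (W l) (W (l + 1)) w := by
      have hcc : (c : ℂ) ≠ 0 := by exact_mod_cast hs.ne'
      rw [lin_apply, lin_apply]
      simp only [Complex.mul_re, Complex.mul_im, Complex.ofReal_re, Complex.ofReal_im]
      push_cast
      field_simp
      ring
    rwa [h5] at h4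
  · rintro ⟨l, hl, w, ⟨h1, h2, h3⟩, rfl⟩
    have hq : w ∈ quad := ⟨h1, h2⟩
    refine ⟨mem_iUnion.mp ((S.mem_iff hl hq).mpr h3.le), ?_⟩
    intro hint
    -- `c • x` for `c` slightly larger than `1` would be in the union
    have hcont : Continuous (fun c : ℝ => (c : ℂ) * lin (W l) (W (l + 1)) w) := by fun_prop
    have hopen : IsOpen ((fun c : ℝ => (c : ℂ) * lin (W l) (W (l + 1)) w) ⁻¹'
        interior (⋃ i, Q i)) := isOpen_interior.preimage hcont
    have h1mem : (1 : ℝ) ∈ ((fun c : ℝ => (c : ℂ) * lin (W l) (W (l + 1)) w) ⁻¹'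
        interior (⋃ i, Q i)) := by
      simpa using hint
    obtain ⟨δ, hδ, hball⟩ := Metric.isOpen_iff.mp hopen 1 h1mem
    have h4 : (1 + δ / 2 : ℝ) ∈ Metric.ball (1 : ℝ) δ := by
      rw [Metric.mem_ball, Real.dist_eq]
      have : (1 + δ / 2 - 1) = δ / 2 := by ring
      rw [this, abs_of_pos (by positivity)]
      linarith
    have h5 := interior_subset (hball h4)
    simp only at h5
    have h6 : (((1 + δ / 2 : ℝ)) : ℂ) * lin (W l) (W (l + 1)) w
        = lin (W l) (W (l + 1)) ((((1 + δ / 2 : ℝ)) : ℂ) * w) := by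
      rw [lin_apply, lin_apply]
      simp only [Complex.mul_re, Complex.mul_im, Complex.ofReal_re, Complex.ofReal_im]
      push_cast
      ring
    rw [h6] at h5
    have hw2 : ((((1 + δ / 2 : ℝ)) : ℂ) * w) ∈ quad := by
      have hp : (0:ℝ) < 1 + δ / 2 := by positivity
      constructor
      · simp only [Complex.mul_re, Complex.ofReal_re, Complex.ofReal_im]
        have := mul_pos hp h1
        simpa using this
      · simp only [Complex.mul_im, Complex.ofReal_re, Complex.ofReal_im]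
        have := mul_nonneg hp.le h2
        simpa using this
    have h7 := (S.mem_iff hl hw2).mp h5
    have h8 : ((((1 + δ / 2 : ℝ)) : ℂ) * w).re + ((((1 + δ / 2 : ℝ)) : ℂ) * w).im
        = (1 + δ / 2) * (w.re + w.im) := by
      simp; ring
    rw [h8, h3] at h7
    linarith

lemma hausdorff_frontier [Nonempty ι] [Finite ι] (S : StarUnion N W r t Q) :
    (μH[1] : Measure ℂ) (frontier (⋃ i, Q i)) =
      ENNReal.ofReal (∑ l ∈ Finset.range N, ‖W (l + 1) - W l‖) := by
  rw [S.frontier_eq, measure_biUnion_finset]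
  · rw [ENNReal.ofReal_sum_of_nonneg (fun l _ => norm_nonneg _)]
    exact Finset.sum_congr rfl fun l hl => hausdorff_side _ _
  · exact S.pairwise (fun w hw => ⟨hw.1, hw.2.1⟩)
  · intro l hl
    exact (measurableEmbedding_lin _ _
      (S.fan.cross_pos (Finset.mem_range.mp hl)).ne').measurableSet_image.mpr measurableSet_side

end StarUnion

end

end Pool.Agent.MP_7297ca_co
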