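import Pool.Agent.MP_7297ca_co.Config

namespace Pool.Agent.MP_7297ca_co

open Real MeasureTheory Set Filter Topology

noncomputable section

namespace Cfg

variable {k n : ℕ} (C : Cfg k n)

/-- the `i`-th displaced polygon -/
def Q (v : Fin k → ℂ) (i : Fin k) : Set ℂ := convexHull ℝ (C.V v '' {m | C.c m = i})

/-- outer normal of the side ending at vertex `m` -/
def a' (m : ℤ) : ℂ := ei (C.θ m - π / n)

lemma b_eq_a' (m : ℤ) : C.b m = C.a' (m + 1) := rfl

lemma period_mul_nat (m : ℤ) (j : ℕ) : C.c (m + k * j) = C.c m := by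
  induction j with
  | zero => simp
  | succ j ih =>
    have : m + (k : ℤ) * ((j + 1 : ℕ) : ℤ) = (m + k * j) + k := by push_cast; ring
    rw [this, C.period, ih]

lemma period_mul (m j : ℤ) : C.c (m + k * j) = C.c m := by
  obtain ⟨j', hj | hj⟩ := j.eq_nat_or_neg
  · rw [hj]; exact C.period_mul_nat m j'
  · rw [hj]
    have h := C.period_mul_nat (m + k * (-(j' : ℤ))) j'
    rw [← h]
    congr 1
    ring

lemma dot_V (v : Fin k → ℂ) (m : ℤ) (φ : ℝ) :
    dot (C.V v m) (ei φ) = C.R * cos (C.θ m - φ) + dot (v (C.c m)) (ei φ) := by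
  unfold V
  rw [dot_add_left, dot_real_mul_ei]

lemma dot_V_a (v : Fin k → ℂ) (m : ℤ) :
    dot (C.V v m) (C.a m) = C.ρ + dot (v (C.c m)) (C.a m) := by
  unfold a ρ
  rw [dot_V]
  have : C.θ m - (C.θ m + π / n) = - (π / n) := by ring
  rw [this, cos_neg]

lemma dot_V_a' (v : Fin k → ℂ) (m : ℤ) :
    dot (C.V v m) (C.a' m) = C.ρ + dot (v (C.c m)) (C.a' m) := by
  unfold a' ρ
  rw [dot_V]
  have : C.θ m - (C.θ m - π / n) = (π / n) := by ring
  rw [this]

lemma dot_X_a (v : Fin k → ℂ) (m : ℤ) :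
    dot (C.X v m) (C.a m) = C.ρ + dot (v (C.c m)) (C.a m) := by
  unfold X
  rw [dot_add_left, dot_smul_left, dot_I_mul, mul_zero, add_zero, dot_V_a]

lemma dot_X_b (v : Fin k → ℂ) (m : ℤ) :
    dot (C.X v m) (C.b m) = C.ρ + dot (v (C.c (m + 1))) (C.b m) := by
  rw [X_eq', dot_sub_left, dot_smul_left, dot_I_mul, mul_zero, sub_zero, b_eq_a', dot_V_a']

lemma convex_halfPlane (ν : ℂ) (h : ℝ) : Convex ℝ {x : ℂ | dot x ν ≤ h} := by
  apply convex_halfSpace_le
  constructor
  · intro x y; exact dot_add_left x y ν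
  · intro c x
    simp [dot]; ring

include C in
lemma n0 : 0 < n := lt_of_lt_of_le (by norm_num) C.hn

lemma support_a (v : Fin k → ℂ) (m : ℤ) {x : ℂ} (hx : x ∈ C.Q v (C.c m)) :
    dot x (C.a m) ≤ C.ρ + dot (v (C.c m)) (C.a m) := by
  have hsub : C.Q v (C.c m) ⊆ {x : ℂ | dot x (C.a m) ≤ C.ρ + dot (v (C.c m)) (C.a m)} := by
    apply convexHull_min _ (convex_halfPlane _ _)
    rintro _ ⟨m', hm', rfl⟩
    obtain ⟨j, rfl⟩ := C.inj m m' hm'.symm
    simp only [mem_ofPred_eq] at hm' ⊢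
    unfold a
    rw [dot_V, hm']
    have h1 : C.θ (m + k * j) - (C.θ m + π / n) = 2 * π * j / n - π / n := by
      rw [θ_add_k]; ring
    rw [h1]
    have h2 := mul_le_mul_of_nonneg_left (cos_two_pi_mul_le' C.n0 j) C.R_pos.le
    unfold ρ
    linarith
  exact hsub hx

lemma support_a' (v : Fin k → ℂ) (m : ℤ) {x : ℂ} (hx : x ∈ C.Q v (C.c m)) :
    dot x (C.a' m) ≤ C.ρ + dot (v (C.c m)) (C.a' m) := by
  have hsub : C.Q v (C.c m) ⊆ {x : ℂ | dot x (C.a' m) ≤ C.ρ + dot (v (C.c m)) (C.a' m)} := by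
    apply convexHull_min _ (convex_halfPlane _ _)
    rintro _ ⟨m', hm', rfl⟩
    obtain ⟨j, rfl⟩ := C.inj m m' hm'.symm
    simp only [mem_ofPred_eq] at hm' ⊢
    unfold a'
    rw [dot_V, hm']
    have h1 : C.θ (m + k * j) - (C.θ m - π / n) = 2 * π * j / n + π / n := by
      rw [θ_add_k]; ring
    rw [h1]
    have h2 := mul_le_mul_of_nonneg_left (cos_two_pi_mul_le C.n0 j) C.R_pos.le
    unfold ρ
    linarith
  exact hsub hx

lemma V_mem (v : Fin k → ℂ) (m : ℤ) : C.V v m ∈ C.Q v (C.c m) :=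
  subset_convexHull ℝ _ ⟨m, rfl, rfl⟩

lemma V_mem' (v : Fin k → ℂ) (m j : ℤ) : C.V v (m + k * j) ∈ C.Q v (C.c m) :=
  subset_convexHull ℝ _ ⟨m + k * j, C.period_mul m j, rfl⟩

lemma V_add_k (v : Fin k → ℂ) (m : ℤ) :
    C.V v (m + k) = C.V v m + Complex.I * C.a m := by
  have h0 : C.c (m + k) = C.c m := C.period m
  have h1 : C.θ (m + k) = C.θ m + 2 * (π / n) := by
    have := C.θ_add_k m 1
    rw [mul_one] at this
    rw [this]; push_cast; ring
  unfold V a
  rw [h0, h1]
  have h2 := C.R_sin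
  have h3 : (C.R : ℂ) * ei (C.θ m + 2 * (π / n)) - (C.R : ℂ) * ei (C.θ m)
      = Complex.I * ei (C.θ m + π / n) := by
    have e1 : C.θ m + 2 * (π / n) = (C.θ m + π / n) + π / n := by ring
    have e2 : C.θ m = (C.θ m + π / n) - π / n := by ring
    rw [e1]
    nth_rewrite 2 [e2]
    apply Complex.ext
    · simp only [Complex.sub_re, ei_re, Complex.re_ofReal_mul, Complex.I_mul_re, ei_im]
      rw [cos_add (C.θ m + π / n), cos_sub]
      linear_combination (- sin (C.θ m + π / n)) * h2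
    · simp only [Complex.sub_im, ei_im, Complex.im_ofReal_mul, Complex.I_mul_im, ei_re]
      rw [sin_add (C.θ m + π / n), sin_sub]
      linear_combination (cos (C.θ m + π / n)) * h2
  linear_combination h3

lemma a'_eq (m : ℤ) : C.a' (m + k) = C.a m := by
  unfold a' a
  have := C.θ_add_k m 1
  rw [mul_one] at this
  rw [this]; push_cast; congr 1; ring

lemma V_sub_k (v : Fin k → ℂ) (m : ℤ) :
    C.V v (m - k) = C.V v m - Complex.I * C.a' m := by
  have h := C.V_add_k v (m - k)
  rw [sub_add_cancel] at h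
  have h2 := C.a'_eq (m - k)
  rw [sub_add_cancel] at h2
  rw [h2, h]; ring

lemma X_mem (v : Fin k → ℂ) (m : ℤ) (h0 : 0 ≤ C.ℓ v m) (h1 : C.ℓ v m ≤ 1) :
    C.X v m ∈ C.Q v (C.c m) := by
  have hV := C.V_mem v m
  have hV' := C.V_mem' v m 1
  rw [mul_one, V_add_k] at hV'
  have := (convex_convexHull ℝ (C.V v '' {m' | C.c m' = C.c m})) hV hV'
    (sub_nonneg.mpr h1) h0 (by ring)
  have he : (1 - C.ℓ v m) • C.V v m + C.ℓ v m • (C.V v m + Complex.I * C.a m) = C.X v m := by
    simp only [Complex.real_smul]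
    unfold X
    push_cast
    ring
  rw [← he]
  exact this

lemma X_mem' (v : Fin k → ℂ) (m : ℤ) (h0 : 0 ≤ C.ℓ' v m) (h1 : C.ℓ' v m ≤ 1) :
    C.X v m ∈ C.Q v (C.c (m + 1)) := by
  have hV := C.V_mem v (m + 1)
  have hV' := C.V_mem' v (m + 1) (-1)
  have e : m + 1 + (k : ℤ) * (-1) = m + 1 - k := by ring
  rw [e, V_sub_k, ← b_eq_a'] at hV'
  have := (convex_convexHull ℝ (C.V v '' {m' | C.c m' = C.c (m + 1)})) hV hV'
    (sub_nonneg.mpr h1) h0 (by ring)
  have he : (1 - C.ℓ' v m) • C.V v (m + 1) + C.ℓ' v m • (C.V v (m + 1) - Complex.I * C.b m)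
      = C.X v m := by
    simp only [Complex.real_smul]
    rw [X_eq']
    push_cast
    ring
  rw [← he]
  exact this

/-- the fan of a single regular `n`-gon -/
lemma fan_single (m : ℤ) : Fan n (fun j => (C.R : ℂ) * ei (C.θ (m + k * j)))
    (fun _ => C.R) (fun j => C.θ (m + k * j)) where
  pos := fun _ _ => C.R_pos
  eq := fun _ _ => rfl
  lt := by
    intro l _
    rw [θ_add_k, θ_add_k]
    have := C.npos
    have hp := C.pin_pos
    have : 2 * π * ((l + 1 : ℕ) : ℝ) / n = 2 * π * (l : ℝ) / n + 2 * (π / n) := by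
      push_cast; ring
    push_cast at this ⊢
    linarith
  lt_pi := by
    intro l _
    rw [θ_add_k, θ_add_k]
    have := C.npos
    have hp := C.pin_le
    have hpi := pi_pos
    have : 2 * π * ((l + 1 : ℕ) : ℝ) / n = 2 * π * (l : ℝ) / n + 2 * (π / n) := by
      push_cast; ring
    push_cast at this ⊢
    linarith
  close := by
    rw [θ_add_k, θ_add_k]
    have := C.npos
    push_cast
    field_simp
    ring

lemma center_mem (v : Fin k → ℂ) (m : ℤ) : v (C.c m) ∈ C.Q v (C.c m) := by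
  have hn := C.npos
  have h := (convex_convexHull ℝ (C.V v '' {m' | C.c m' = C.c m})).sum_mem
    (t := Finset.range n) (w := fun _ => (1 / n : ℝ)) (z := fun j => C.V v (m + k * j))
    (fun i _ => by positivity) (by simp [hn.ne']) (fun j _ => C.V_mem' v m j)
  have h1 : ∑ j ∈ Finset.range n, (1 / n : ℝ) • C.V v (m + k * j) = v (C.c m) := by
    rw [← Finset.smul_sum]
    have h2 : ∀ j ∈ Finset.range n, C.V v (m + k * j)
        = (C.R : ℂ) * ei (C.θ m + 2 * π * (1 : ℤ) * j / n) + v (C.c m) := by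
      intro j _
      unfold V
      rw [C.period_mul, θ_add_k]
      push_cast
      simp
    rw [Finset.sum_congr rfl h2, Finset.sum_add_distrib, ← Finset.mul_sum,
      sum_ei_eq_zero C.n0 1 _ (C.θ m)]
    · simp only [mul_zero, zero_add, Finset.sum_const, Finset.card_range, nsmul_eq_mul,
        Complex.real_smul]
      push_cast
      have : (n : ℂ) ≠ 0 := by exact_mod_cast hn.ne'
      field_simp
    · intro hd
      have := Int.le_of_dvd one_pos hd
      have := C.hn
      omega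
  rw [h1] at h
  exact h

lemma ball_subset (v : Fin k → ℂ) (m : ℤ) : Metric.ball (v (C.c m)) C.ρ ⊆ C.Q v (C.c m) := by
  intro x hx
  rw [Metric.mem_ball, dist_eq_norm] at hx
  by_cases h0 : x - v (C.c m) = 0
  · rw [sub_eq_zero.mp h0]; exact C.center_mem v m
  · obtain ⟨l, hl, w, hw, hxw⟩ := (C.fan_single m).exists_mem h0
    have hdot : dot (x - v (C.c m)) (ei (C.θ (m + k * l) + π / n)) = (w.re + w.im) * C.ρ := by
      rw [← hxw, dot_lin, dot_real_mul_ei, dot_real_mul_ei]
      have e1 : C.θ (m + k * l) - (C.θ (m + k * l) + π / n) = - (π / n) := by ring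
      have e2 : C.θ (m + k * ((l + 1 : ℕ) : ℤ)) - (C.θ (m + k * l) + π / n) = π / n := by
        rw [θ_add_k, θ_add_k]; push_cast; ring
      rw [e1, e2, cos_neg]
      unfold ρ
      ring
    have hle : (w.re + w.im) * C.ρ ≤ 1 * C.ρ := by
      rw [← hdot]
      have := (le_abs_self _).trans (abs_dot_le (x - v (C.c m)) (ei (C.θ (m + k * l) + π / n)))
      rw [norm_ei, mul_one] at this
      linarith
    have hle' : w.re + w.im ≤ 1 := le_of_mul_le_mul_right hle C.ρ_pos
    have h1 := C.V_mem' v m l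
    have h2 := C.V_mem' v m ((l + 1 : ℕ) : ℤ)
    have h3 := C.center_mem v m
    have := (convex_convexHull ℝ (C.V v '' {m' | C.c m' = C.c m})).sum_mem
      (t := Finset.univ) (w := ![w.re, w.im, 1 - w.re - w.im])
      (z := ![C.V v (m + k * l), C.V v (m + k * ((l + 1 : ℕ) : ℤ)), v (C.c m)])
    simp only [Finset.mem_univ, Fin.sum_univ_three, forall_const] at this
    simp only [Matrix.cons_val_zero, Matrix.cons_val_one, Matrix.cons_val_two] at this
    have h7 := this (by
      intro j; fin_cases j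
      · exact hw.1.le
      · exact hw.2
      · simp; linarith) (by simp) (by
      intro j; fin_cases j
      · exact h1
      · exact h2
      · exact h3)
    have he : x = v (C.c m) + lin ((C.R : ℂ) * ei (C.θ (m + k * l)))
        ((C.R : ℂ) * ei (C.θ (m + k * ((l + 1 : ℕ) : ℤ)))) w := by
      rw [hxw]; ring
    have h8 : x = w.re • C.V v (m + k * l) + w.im • C.V v (m + k * ((l + 1 : ℕ) : ℤ))
        + (1 - w.re - w.im) • v (C.c m) := by
      rw [he, lin_apply]
      unfold V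
      rw [C.period_mul, C.period_mul]
      simp only [Complex.real_smul]
      push_cast
      ring
    rw [h8]
    unfold Q
    simpa using h7

end Cfg

end

end Pool.Agent.MP_7297ca_co
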