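import Pool.Agent.MP_7297ca_co.Good

namespace Pool.Agent.MP_7297ca_co

open Real MeasureTheory Set Filter Topology

noncomputable section

namespace Cfg

variable {k n : ℕ} (C : Cfg k n)

lemma θ_add_kn (m : ℤ) : C.θ (m + k * n) = C.θ m + 2 * π := by
  rw [θ_add_k]
  have := C.npos
  push_cast
  field_simp

lemma ei_θ_add_kn (m : ℤ) (φ : ℝ) : ei (C.θ (m + k * n) + φ) = ei (C.θ m + φ) := by
  rw [θ_add_kn]
  have : C.θ m + 2 * π + φ = (C.θ m + φ) + 2 * π := by ring
  rw [this, ei_add_two_pi]

lemma V_add_kn (v : Fin k → ℂ) (m : ℤ) : C.V v (m + k * n) = C.V v m := by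
  unfold V
  rw [C.period_mul]
  have := C.ei_θ_add_kn m 0
  rw [add_zero, add_zero] at this
  rw [this]

lemma a_add_kn (m : ℤ) : C.a (m + k * n) = C.a m := C.ei_θ_add_kn m _

lemma b_add_kn (m : ℤ) : C.b (m + k * n) = C.b m := by
  unfold b
  have e : m + (k : ℤ) * n + 1 = (m + 1) + k * n := by ring
  rw [e, sub_eq_add_neg, C.ei_θ_add_kn, ← sub_eq_add_neg]

lemma w_add_kn (v : Fin k → ℂ) (m : ℤ) : C.w v (m + k * n) = C.w v m := by
  unfold w
  have e : m + (k : ℤ) * n + 1 = (m + 1) + k * n := by ring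
  rw [e, C.period_mul, C.period_mul]

lemma X_add_kn (v : Fin k → ℂ) (m : ℤ) : C.X v (m + k * n) = C.X v m := by
  unfold X ℓ
  rw [V_add_kn, a_add_kn, b_add_kn, w_add_kn]

lemma W_add (v : Fin k → ℂ) (l : ℕ) : C.W v (l + 2 * (k * n)) = C.W v l := by
  obtain ⟨m, hm | hm⟩ := Nat.even_or_odd' l
  · have : l + 2 * (k * n) = 2 * (m + k * n) := by rw [hm]; ring
    rw [this, hm, W_even, W_even]
    push_cast
    exact C.V_add_kn v m
  · have : l + 2 * (k * n) = 2 * (m + k * n) + 1 := by rw [hm]; ring
    rw [this, hm, W_odd, W_odd]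
    push_cast
    exact C.X_add_kn v m

lemma bang_add (l : ℕ) : C.bang (l + 2 * (k * n)) = C.bang l + 2 * π := by
  unfold bang η
  have := C.kpos; have := C.npos
  push_cast
  field_simp
  ring

lemma bang_succ (l : ℕ) : C.bang (l + 1) = C.bang l + C.η := by
  unfold bang
  push_cast
  ring

lemma ei_neg_bang_add (l : ℕ) : ei (-(C.bang (l + 2 * (k * n)))) = ei (-(C.bang l)) := by
  rw [bang_add]
  have : -(C.bang l) = -(C.bang l + 2 * π) + 2 * π := by ring
  rw [this, ei_add_two_pi]

lemma ang_add (v : Fin k → ℂ) (l : ℕ) : C.ang v (l + 2 * (k * n)) = C.ang v l + 2 * π := by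
  unfold ang
  rw [W_add, ei_neg_bang_add, bang_add]
  ring

include C in
lemma kn_pos : 0 < k * n := Nat.mul_pos C.hk C.n0

variable {C}

lemma Good.dot_small {v : Fin k → ℂ} (G : C.Good v) (i : Fin k) (φ : ℝ) :
    0 < C.ρ + dot (v i) (ei φ) := by
  have h1 := neg_abs_le (dot (v i) (ei φ))
  have h2 := abs_dot_le (v i) (ei φ)
  rw [norm_ei, mul_one] at h2
  have := G.small i
  linarith

lemma Good.V_ne {v : Fin k → ℂ} (G : C.Good v) (m : ℤ) : C.V v m ≠ 0 := by
  intro h
  have h1 := C.dot_V_a v m
  rw [h, dot_zero_left] at h1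
  have := G.dot_small (C.c m) (C.θ m + π / n)
  unfold a at h1
  linarith

lemma Good.X_ne {v : Fin k → ℂ} (G : C.Good v) (m : ℤ) : C.X v m ≠ 0 := by
  intro h
  have h1 := C.dot_X_a v m
  rw [h, dot_zero_left] at h1
  have := G.dot_small (C.c m) (C.θ m + π / n)
  unfold a at h1
  linarith

lemma Good.W_ne {v : Fin k → ℂ} (G : C.Good v) (l : ℕ) : C.W v l ≠ 0 := by
  unfold W
  split_ifs
  · exact G.V_ne _
  · exact G.X_ne _

lemma Good.E' {v : Fin k → ℂ} (G : C.Good v) {l : ℕ} (hl : l ≤ 2 * (k * n)) :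
    |Complex.arg (C.W v l * ei (-(C.bang l)))| < C.η / 2 := by
  rcases hl.lt_or_eq with h | h
  · exact G.E l h
  · have h0 := G.E 0 (by have := C.kn_pos; omega)
    have h1 := C.W_add v 0
    have h2 := C.ei_neg_bang_add 0
    rw [zero_add] at h1 h2
    rw [h, h1, h2]
    exact h0

lemma W_polar (v : Fin k → ℂ) (l : ℕ) : C.W v l = ‖C.W v l‖ * ei (C.ang v l) := by
  unfold ang
  rw [ei_add]
  have h1 : C.W v l * ei (-(C.bang l)) = (‖C.W v l * ei (-(C.bang l))‖ : ℝ) *
      ei (Complex.arg (C.W v l * ei (-(C.bang l)))) := by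
    conv_lhs => rw [← Complex.norm_mul_exp_arg_mul_I (C.W v l * ei (-(C.bang l)))]
    rfl
  rw [norm_mul, norm_ei, mul_one] at h1
  have h2 : C.W v l = (C.W v l * ei (-(C.bang l))) * ei (C.bang l) := by
    rw [mul_assoc, ← ei_add, neg_add_cancel, ei_zero, mul_one]
  conv_lhs => rw [h2, h1]
  ring

lemma Good.fan {v : Fin k → ℂ} (G : C.Good v) :
    Fan (2 * (k * n)) (C.W v) (fun l => ‖C.W v l‖) (C.ang v) where
  pos := fun l _ => norm_pos_iff.mpr (G.W_ne l)
  eq := fun l _ => W_polar v l
  lt := by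
    intro l hl
    have h1 := abs_lt.mp (G.E' hl.le)
    have h2 := abs_lt.mp (G.E' hl)
    unfold ang
    have h3 := C.bang_succ l
    have h4 : l.succ = l + 1 := rfl
    rw [h4] at h2
    linarith [h1.2, h2.1]
  lt_pi := by
    intro l hl
    have h1 := abs_lt.mp (G.E' hl.le)
    have h2 := abs_lt.mp (G.E' hl)
    unfold ang
    have h3 := C.bang_succ l
    have h4 : l.succ = l + 1 := rfl
    rw [h4] at h2
    have h5 := C.η_le
    have h6 := C.pin_le
    have h7 := pi_pos
    linarith [h1.1, h2.2]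
  close := by
    have := C.ang_add v 0
    rwa [zero_add] at this

lemma Good.star {v : Fin k → ℂ} (G : C.Good v) :
    StarUnion (2 * (k * n)) (C.W v) (fun l => ‖C.W v l‖) (C.ang v) (C.Q v) where
  fan := G.fan
  closeW := by
    have := C.W_add v 0
    rwa [zero_add] at this
  convex := fun i => convex_convexHull ℝ _
  closed := by
    intro i
    have hfin : (C.V v '' {m | C.c m = i}).Finite := by
      obtain ⟨s, _, hs⟩ := C.surj 0 i
      have hsub : C.V v '' {m | C.c m = i} ⊆
          (fun j : ℕ => C.V v (0 + s + k * j)) '' (Finset.range n : Set ℕ) := by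
        rintro _ ⟨m, hm, rfl⟩
        rw [mem_ofPred_eq] at hm
        obtain ⟨j, rfl⟩ := C.inj (0 + s) m (by rw [hs, hm])
        have hnz : (n : ℤ) ≠ 0 := by exact_mod_cast C.n0.ne'
        have h1 : j = n * (j / n) + j % n := (Int.mul_ediv_add_emod j n).symm
        have h2 : 0 ≤ j % n := Int.emod_nonneg j hnz
        have h3 : j % n < n := Int.emod_lt_of_pos j (by exact_mod_cast C.n0)
        refine ⟨(j % n).toNat, by simp; omega, ?_⟩
        have h4 : (((j % n).toNat : ℕ) : ℤ) = j % n := Int.toNat_of_nonneg h2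
        simp only [h4]
        have hper : ∀ q m' : ℤ, C.V v (m' + k * n * q) = C.V v m' := by
          intro q m'
          unfold V
          have e1 : m' + (k : ℤ) * n * q = m' + k * (n * q) := by ring
          rw [e1, C.period_mul, θ_add_k]
          have hn := C.npos
          have e2 : C.θ m' + 2 * π * ((n * q : ℤ) : ℝ) / n = C.θ m' + q * (2 * π) := by
            push_cast; field_simp
          rw [e2]
          congr 2
          apply Complex.ext
          · rw [ei_re, ei_re, cos_add_int_mul_two_pi]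
          · rw [ei_im, ei_im, sin_add_int_mul_two_pi]
        have e3 : (0 + (s : ℤ) + k * j) = (0 + (s : ℤ) + k * (j % n)) + k * n * (j / n) := by
          conv_lhs => rw [h1]
          ring
        rw [e3, hper]
      exact (Set.Finite.image _ (Finset.finite_toSet _)).subset hsub
    exact hfin.isClosed_convexHull ℝ
  int := by
    intro i
    obtain ⟨s, _, hs⟩ := C.surj 0 i
    rw [mem_interior]
    refine ⟨Metric.ball (v i) C.ρ, ?_, Metric.isOpen_ball, ?_⟩
    · rw [← hs]; exact C.ball_subset v (0 + s)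
    · rw [Metric.mem_ball, dist_eq_norm, zero_sub, norm_neg]
      exact G.small i
  mem := by
    intro l hl
    obtain ⟨m, hm | hm⟩ := Nat.even_or_odd' l
    · have hmk : m < k * n := by omega
      refine ⟨C.c m, ?_, ?_⟩
      · rw [hm, W_even]; exact C.V_mem v m
      · rw [hm, W_odd]; exact C.X_mem v m (G.l0 m hmk).le (G.l1 m hmk).le
    · have hmk : m < k * n := by omega
      refine ⟨C.c (m + 1), ?_, ?_⟩
      · rw [hm, W_odd]; exact C.X_mem' v m (G.l0' m hmk).le (G.l1' m hmk).le
      · have : l + 1 = 2 * (m + 1) := by omega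
        rw [this, W_even]
        push_cast
        exact C.V_mem v (m + 1)
  supp := by
    intro l hl i
    obtain ⟨m, hm | hm⟩ := Nat.even_or_odd' l
    · have hmk : m < k * n := by omega
      obtain ⟨s, hs, hsi⟩ := C.surj m i
      rcases Nat.eq_zero_or_pos s with h0 | h0
      · subst h0
        rw [Nat.cast_zero, add_zero] at hsi
        subst hsi
        refine ⟨C.a m, C.ρ + dot (v (C.c m)) (C.a m), G.dot_small _ _,
          fun x hx => C.support_a v m hx, ?_, ?_⟩
        · rw [hm, W_even, dot_V_a]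
        · rw [hm, W_odd, dot_X_a]
      · subst hsi
        refine ⟨C.a' (m + s), C.ρ + dot (v (C.c (m + s))) (C.a' (m + s)), G.dot_small _ _,
          fun x hx => C.support_a' v (m + s) hx, ?_, ?_⟩
        · rw [hm, W_even]
          exact (G.A m hmk s hs h0).le
        · rw [hm, W_odd]
          rcases Nat.lt_or_ge 1 s with h1 | h1
          · exact (G.B m hmk s hs h1).le
          · have : s = 1 := by omega
            subst this
            rw [Nat.cast_one, ← b_eq_a', dot_X_b]
    · have hmk : m < k * n := by omega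
      obtain ⟨s', hs', hsi'⟩ := C.surj (m + 1 - (k - 1)) i
      obtain ⟨s, hs, hsi⟩ : ∃ s : ℕ, s < k ∧ C.c ((m : ℤ) + 1 - s) = i := by
        refine ⟨k - 1 - s', by omega, ?_⟩
        rw [← hsi']
        congr 1
        have : ((k - 1 - s' : ℕ) : ℤ) = k - 1 - s' := by omega
        rw [this]; ring
      have hl1 : l + 1 = 2 * (m + 1) := by omega
      rcases Nat.eq_zero_or_pos s with h0 | h0
      · subst h0
        rw [Nat.cast_zero, sub_zero] at hsi
        subst hsi
        refine ⟨C.b m, C.ρ + dot (v (C.c (m + 1))) (C.b m), G.dot_small _ _,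
          fun x hx => C.support_a' v (m + 1) hx, ?_, ?_⟩
        · rw [hm, W_odd, dot_X_b]
        · rw [hl1, W_even]
          push_cast
          rw [b_eq_a', dot_V_a']
      · subst hsi
        refine ⟨C.a (m + 1 - s), C.ρ + dot (v (C.c (m + 1 - s))) (C.a (m + 1 - s)),
          G.dot_small _ _, fun x hx => C.support_a v (m + 1 - s) hx, ?_, ?_⟩
        · rw [hm, W_odd]
          rcases Nat.lt_or_ge 1 s with h1 | h1
          · exact (G.B' m hmk s hs h1).le
          · have : s = 1 := by omega
            subst this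
            have e : (m : ℤ) + 1 - ((1 : ℕ) : ℤ) = m := by push_cast; ring
            rw [e, dot_X_a]
        · rw [hl1, W_even]
          push_cast
          exact (G.A' m hmk s hs h0).le

end Cfg

end

end Pool.Agent.MP_7297ca_co
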